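import Pool.Agent.Helper39.Uct.NullK

open scoped ComplexOrder

namespace Pool.Agent.Helper39.Uct

open Fib

section

variable {Q : Type} [Group Q] {B : Type} [NonUnitalCStarAlgebra B] (G : Fib Q B)

theorem M0_inv {d : B} (hd : IsSelfAdjoint d) {q : Q} (hq : q ∈ G.M0 d) : q⁻¹ ∈ G.M0 d := by
  obtain ⟨b, hb, h⟩ := hq
  refine ⟨star b, G.star_mem q b hb, fun h0 => h ?_⟩
  have : star (d * star b * d) = d * b * d := by
    rw [star_mul, star_mul, star_star, hd.star_eq, mul_assoc]
  rw [← this, h0, star_zero]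

/-- The group generated by `M0 d` and `K` normalises `K`. -/
theorem closure_norm {d : B} (hd : IsSelfAdjoint d) {K : Subgroup Q}
    (hK : ∀ q ∈ G.M0 d, ∀ k ∈ K, q * k * q⁻¹ ∈ K) :
    ∀ q ∈ Subgroup.closure (G.M0 d ∪ (K : Set Q)), ∀ k ∈ K, q * k * q⁻¹ ∈ K := by
  have key : ∀ q ∈ Subgroup.closure (G.M0 d ∪ (K : Set Q)), ∀ k, k ∈ K ↔ q * k * q⁻¹ ∈ K := by
    intro q hq
    induction hq using Subgroup.closure_induction with
    | mem x hx =>
      rcases hx with hx | hx
      · intro k
        refine ⟨hK x hx k, fun h => ?_⟩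
        have := hK x⁻¹ (M0_inv G hd hx) _ h
        have e : x⁻¹ * (x * k * x⁻¹) * x⁻¹⁻¹ = k := by group
        rwa [e] at this
      · intro k
        have hx' : x ∈ K := hx
        refine ⟨fun h => K.mul_mem (K.mul_mem hx' h) (K.inv_mem hx'), fun h => ?_⟩
        have := K.mul_mem (K.mul_mem (K.inv_mem hx') h) hx'
        have e : x⁻¹ * (x * k * x⁻¹) * x = k := by group
        rwa [e] at this
    | one => intro k; simp
    | mul x y _ _ hx hy =>
      intro k
      rw [hy k, hx (y * k * y⁻¹)]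
      have e : x * (y * k * y⁻¹) * x⁻¹ = x * y * k * (x * y)⁻¹ := by group
      rw [e]
    | inv x _ hx =>
      intro k
      rw [hx (x⁻¹ * k * x⁻¹⁻¹)]
      have e : x * (x⁻¹ * k * x⁻¹⁻¹) * x⁻¹ = k := by group
      rw [e]
  intro q hq k hk
  exact (key q hq k).1 hk

/-- An element of a fibre that is null at all points is zero. -/
theorem eq_zero_of_null (hG : G.Comm) (hPE : S_PE) {q : Q} {y : B} (hy : y ∈ G.fib q)
    (h : ∀ φ : G.Pt, φ (star y * y) = 0) : y = 0 := by
  by_contra h0
  have h1 : star y * y ≠ 0 := fun h2 => h0 (CStarRing.star_mul_self_eq_zero_iff _ |>.1 h2)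
  obtain ⟨φ, hφ⟩ := hPE Q B G hG _ (smem G hy hy) h1
  rw [h φ, norm_zero] at hφ
  exact h1 (norm_eq_zero.1 hφ.symm)

theorem phi_star_cut (φ : G.Pt) {d w : B} (hd : d ∈ G.fib 1) (hsa : IsSelfAdjoint d)
    (h : φ d = 0) : φ (star (w * d) * (w * d)) = 0 := by
  have e : star (w * d) * (w * d) = d * (star w * w) * d := by
    rw [star_mul, hsa.star_eq]; noncomm_ring
  rw [e, phi_cut φ hd, h]
  simp

end

theorem ap (hPE : S_PE) (hPF : S_PF) : S_AP := by
  intro Q _ B _ G hG ⟨d, hd, hsa, h0, K, hK, ⟨hfix, hnorm⟩, hcm⟩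
  obtain ⟨φ0, hφ0⟩ := hPE Q B G hG d hd h0
  have hφ0' : φ0 d ≠ 0 := by
    intro h
    rw [h, norm_zero] at hφ0
    exact h0 (norm_eq_zero.1 hφ0.symm)
  refine ⟨d, Subgroup.closure (G.M0 d ∪ (K : Set Q)), K,
    fun x hx => Subgroup.subset_closure (Or.inr hx), hK, closure_norm G hsa hnorm, hsa, h0,
    ?_, ?_, ?_⟩
  · intro q hq b hb
    by_contra h
    exact hq (Subgroup.subset_closure (Or.inl ⟨b, hb, h⟩))
  · refine Submodule.le_topologicalClosure _ (Submodule.mem_iSup_of_mem (1 : K) ?_)
    exact hd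
  · intro k hk k' hk' b hb b' hb'
    have hkk : k * k' = k' * k := (hcm k hk k' hk' φ0 hφ0').1
    rw [← sub_eq_zero]
    have hm1 : ∀ {q q' : Q} {u v : B}, u ∈ G.fib q → v ∈ G.fib q' →
        (d * u * d) * (d * v * d) ∈ G.fib (q * q') := by
      intro q q' u v hu hv
      exact G.mul_mem _ _ _ _ (unit_r G hd (unit_l G hd hu)) (unit_r G hd (unit_l G hd hv))
    have hy : (d * b * d) * (d * b' * d) - (d * b' * d) * (d * b * d) ∈ G.fib (k * k') := by
      refine (G.fib _).sub_mem (hm1 hb hb') ?_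
      have := hm1 hb' hb
      rwa [← hkk] at this
    refine eq_zero_of_null G hG hPE hy fun φ => ?_
    by_cases hφ : φ d = 0
    · have e : (d * b * d) * (d * b' * d) - (d * b' * d) * (d * b * d) =
          ((d * b * d) * (d * b') - (d * b' * d) * (d * b)) * d := by noncomm_ring
      rw [e]
      exact phi_star_cut G φ hd hsa hφ
    · have main : ∀ {q q' : Q} {u v : B}, q ∈ K → q' ∈ K → u ∈ G.fib q → v ∈ G.fib q' →
          (d * u * d) * (d * v * d) - (φ d ^ 4) • (u * v) ∈ Nul φ := by
        intro q q' u v hq hq' hu hv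
        have sq := hfix q hq φ hφ
        have sq' := hfix q' hq' φ hφ
        have sqq : q * q' ∈ G.St φ := (hPF Q B G hG).st_mul φ q q' sq sq'
        have n1 : v * d - φ d • v ∈ Nul φ := Nul_r φ hd v
        have n2 : d * v - φ d • v ∈ Nul φ := Nul_l φ hd sq' hv
        have n3 : d * (u * v) - φ d • (u * v) ∈ Nul φ :=
          Nul_l φ hd sqq (G.mul_mem _ _ _ _ hu hv)
        have e : (d * u * d) * (d * v * d) - (φ d ^ 4) • (u * v) =
            (d * u * d * d) * (v * d - φ d • v) +
            φ d • ((d * u * d) * (d * v - φ d • v)) +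
            (φ d ^ 2) • ((d * u) * (d * v - φ d • v)) +
            (φ d ^ 3) • (d * (u * v) - φ d • (u * v)) := by
          simp only [mul_sub, smul_sub, mul_smul_comm, smul_smul]
          have e1 : d * u * d * (d * v * d) = d * u * d * d * (v * d) := by noncomm_ring
          have e2 : d * u * d * (d * v) = d * u * d * d * v := by noncomm_ring
          have e3 : d * u * (d * v) = d * u * d * v := by noncomm_ring
          have e4 : d * (u * v) = d * u * v := by noncomm_ring
          rw [e1, e2, e3, e4]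
          module
        rw [e]
        exact (Nul φ).add_mem ((Nul φ).add_mem ((Nul φ).add_mem (Nul_left φ n1 _)
          ((Nul φ).smul_mem _ (Nul_left φ n2 _))) ((Nul φ).smul_mem _ (Nul_left φ n2 _)))
          ((Nul φ).smul_mem _ n3)
      have m1 := main hk hk' hb hb'
      have m2 := main hk' hk hb' hb
      have m3 : b * b' - b' * b ∈ Nul φ := (hcm k hk k' hk' φ hφ).2 b hb b' hb'
      have e : (d * b * d) * (d * b' * d) - (d * b' * d) * (d * b * d) =
          ((d * b * d) * (d * b' * d) - (φ d ^ 4) • (b * b')) -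
          ((d * b' * d) * (d * b * d) - (φ d ^ 4) • (b' * b)) +
          (φ d ^ 4) • (b * b' - b' * b) := by
        rw [smul_sub]; abel
      have := (Nul φ).add_mem ((Nul φ).sub_mem m1 m2) ((Nul φ).smul_mem (φ d ^ 4) m3)
      rw [← e] at this
      exact this

end Pool.Agent.Helper39.Uct
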