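import Pool.Agent.Helper39.Uct.Goals2

open scoped ComplexOrder

namespace Pool.Agent.Helper39.Uct

open Fib

section au

variable {B : Type} [NonUnitalCStarAlgebra B]

/-- Approximate units of closed subalgebras. -/
theorem exists_au (C : NonUnitalStarSubalgebra ℂ B) (hC : IsClosed (C : Set B))
    (s : Finset B) (hs : ∀ b ∈ s, b * star b ∈ C) (ε : ℝ) (hε : 0 < ε) :
    ∃ e ∈ C, IsSelfAdjoint e ∧ ‖e‖ ≤ 1 ∧ ∀ b ∈ s, ‖e * b - b‖ < ε := by
  have : IsClosed (C : Set B) := hC
  let _ : PartialOrder C := CStarAlgebra.spectralOrder C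
  have : StarOrderedRing C := CStarAlgebra.spectralOrderedRing C
  let l := CStarAlgebra.approximateUnit C
  have hl := CStarAlgebra.increasingApproximateUnit C
  have h1 : ∀ᶠ e in l, 0 ≤ e := hl.eventually_nonneg
  have h2 : ∀ᶠ e in l, ‖e‖ ≤ 1 := hl.eventually_norm
  have h3 : ∀ᶠ e in l, ∀ b (hb : b ∈ s), ‖e * (⟨b * star b, hs b hb⟩ : C) -
      ⟨b * star b, hs b hb⟩‖ < ε ^ 2 / 2 := by
    have : ∀ b ∈ s, ∀ᶠ e in l, ∀ hb : b ∈ s, ‖e * (⟨b * star b, hs b hb⟩ : C) -
      ⟨b * star b, hs b hb⟩‖ < ε ^ 2 / 2 := by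
      intro b hb
      have := hl.tendsto_mul_right (⟨b * star b, hs b hb⟩ : C)
      have := (Metric.tendsto_nhds.mp this) (ε ^ 2 / 2) (by positivity)
      filter_upwards [this] with e he _
      simpa [dist_eq_norm] using he
    have := (Filter.eventually_all_finset s).2 this
    filter_upwards [this] with e he b hb using he b hb hb
  obtain ⟨e, he1, he2, he3⟩ := (h1.and (h2.and h3)).exists
  have hsa : IsSelfAdjoint e := IsSelfAdjoint.of_nonneg he1
  have hsa' : star (e : B) = e := congrArg Subtype.val hsa.star_eq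
  refine ⟨e, e.2, hsa', he2, fun b hb => ?_⟩
  have h4 := he3 b hb
  set x : B := b * star b with hx
  have h5 : ‖(e : B) * x - x‖ < ε ^ 2 / 2 := h4
  have h6 : (e * b - b) * star (e * b - b) = ((e : B) * x - x) * e - ((e : B) * x - x) := by
    rw [star_sub, star_mul, hsa', hx]
    noncomm_ring
  have h7 : ‖(e : B) * b - b‖ * ‖(e : B) * b - b‖ < ε ^ 2 := by
    rw [← CStarRing.norm_self_mul_star, h6]
    calc _ ≤ ‖((e : B) * x - x) * e‖ + ‖(e : B) * x - x‖ := norm_sub_le _ _
      _ ≤ ‖(e : B) * x - x‖ * ‖(e : B)‖ + ‖(e : B) * x - x‖ := by gcongr; exact norm_mul_le _ _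
      _ ≤ ‖(e : B) * x - x‖ * 1 + ‖(e : B) * x - x‖ := by gcongr; exact he2
      _ < ε ^ 2 := by linarith
  exact lt_of_pow_lt_pow_left₀ 2 hε.le (by nlinarith)

end au

section

variable {Q : Type} [Group Q] {B : Type} [NonUnitalCStarAlgebra B] (G : Fib Q B)

/-- The unit fibre as a subalgebra. -/
def unitAlg : NonUnitalStarSubalgebra ℂ B where
  carrier := G.fib 1
  add_mem' := fun ha hb => (G.fib 1).add_mem ha hb
  zero_mem' := (G.fib 1).zero_mem
  mul_mem' := fun {a b} ha hb => by
    have := G.mul_mem 1 1 a b ha hb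
    simpa using this
  smul_mem' := fun c x hx => (G.fib 1).smul_mem c hx
  star_mem' := fun {a} ha => by
    have := G.star_mem 1 a ha
    simpa using this

@[simp] theorem mem_unitAlg (x : B) : x ∈ unitAlg G ↔ x ∈ G.fib 1 := Iff.rfl

theorem unit_mul {a b : B} (ha : a ∈ G.fib 1) (hb : b ∈ G.fib 1) : a * b ∈ G.fib 1 := by
  simpa using G.mul_mem 1 1 a b ha hb

theorem unit_star {a : B} (ha : a ∈ G.fib 1) : star a ∈ G.fib 1 := by
  simpa using G.star_mem 1 a ha

theorem smem {q : Q} {a b : B} (ha : a ∈ G.fib q) (hb : b ∈ G.fib q) :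
    star a * b ∈ G.fib 1 := by
  simpa using G.mul_mem q⁻¹ q _ _ (G.star_mem q a ha) hb

theorem mems {q : Q} {a b : B} (ha : a ∈ G.fib q) (hb : b ∈ G.fib q) :
    a * star b ∈ G.fib 1 := by
  simpa using G.mul_mem q q⁻¹ _ _ ha (G.star_mem q b hb)

theorem unit_l {q : Q} {c b : B} (hc : c ∈ G.fib 1) (hb : b ∈ G.fib q) :
    c * b ∈ G.fib q := by
  simpa using G.mul_mem 1 q _ _ hc hb

theorem unit_r {q : Q} {c b : B} (hc : c ∈ G.fib 1) (hb : b ∈ G.fib q) :
    b * c ∈ G.fib q := by
  simpa using G.mul_mem q 1 _ _ hb hc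

/-- The span of `C · B` is dense. -/
theorem dense_CB : (Submodule.span ℂ {x : B | ∃ c ∈ G.fib 1, ∃ b, x = c * b}).topologicalClosure
    = ⊤ := by
  refine top_le_iff.1 ?_
  rw [← G.dense]
  refine Submodule.topologicalClosure_minimal _ ?_ (Submodule.isClosed_topologicalClosure _)
  refine iSup_le fun q b hb => ?_
  change b ∈ closure _
  rw [Metric.mem_closure_iff]
  intro ε hε
  obtain ⟨e, he, -, -, h⟩ := exists_au (unitAlg G) (G.closed 1) {b}
    (by simpa using mems G hb hb) ε hε
  refine ⟨e * b, Submodule.subset_span ⟨e, he, b, rfl⟩, ?_⟩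
  rw [dist_comm, dist_eq_norm]
  exact h b (by simp)

theorem mem_closure_unit_mul (b : B) :
    b ∈ closure (Submodule.span ℂ {x : B | ∃ c ∈ G.fib 1, ∃ b, x = c * b} : Set B) := by
  have := dense_CB G
  have h : b ∈ (Submodule.span ℂ {x : B | ∃ c ∈ G.fib 1, ∃ b, x = c * b}).topologicalClosure := by
    rw [this]; trivial
  exact h

end

section fun_facts

variable {Q : Type} [Group Q] {B : Type} [NonUnitalCStarAlgebra B] {G : Fib Q B} (φ : G.Pt)

theorem pt_cont : Continuous (φ.toFun : B → ℂ) := by
  have : Continuous (LinearMap.mkContinuous φ.toFun 1 (by simpa using φ.bound)) :=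
    ContinuousLinearMap.continuous _
  exact this

theorem pt_re (b : B) : 0 ≤ (φ (star b * b)).re := by
  have := φ.pos b
  exact (Complex.nonneg_iff.1 this).1

theorem pt_im (b : B) : (φ (star b * b)).im = 0 := by
  have := φ.pos b
  exact ((Complex.nonneg_iff.1 this).2).symm

theorem pt_conj (a b : B) : star (φ (star b * a)) = φ (star a * b) := by
  have h1 := pt_im φ (a + b)
  have h2 := pt_im φ (a + Complex.I • b)
  have e1 : star (a + b) * (a + b) = star a * a + star a * b + star b * a + star b * b := by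
    rw [star_add]; noncomm_ring
  have e2 : star (a + Complex.I • b) * (a + Complex.I • b) =
      star a * a + Complex.I • (star a * b) + (-Complex.I) • (star b * a) + star b * b := by
    have e3 : star (Complex.I • b) = -(Complex.I • star b) := by
      rw [star_smul]; simp
    have e4 : Complex.I • Complex.I • (star b * b) = -(star b * b) := by
      rw [smul_smul, Complex.I_mul_I, neg_one_smul]
    rw [star_add, e3]
    simp only [add_mul, mul_add, neg_mul, smul_mul_assoc, mul_smul_comm, neg_smul]
    rw [smul_add, smul_neg, e4, neg_neg]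
    abel
  rw [e1] at h1
  rw [e2] at h2
  simp only [map_add, map_smul, Complex.add_im, smul_eq_mul, Complex.mul_im, Complex.I_re,
    Complex.I_im, Complex.neg_re, Complex.neg_im] at h1 h2
  have ha := pt_im φ a
  have hb := pt_im φ b
  rw [ha, hb] at h1 h2
  apply Complex.ext
  · simp only [RCLike.star_def, Complex.conj_re]
    linarith
  · simp only [RCLike.star_def, Complex.conj_im]
    linarith

/-- The semi-inner product of a point. -/
@[instance_reducible] noncomputable def ptCore : PreInnerProductSpace.Core ℂ B where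
  inner a b := φ (star a * b)
  conj_inner_symm x y := by
    have := pt_conj φ x y
    simpa using this
  re_inner_nonneg x := pt_re φ x
  add_left x y z := by simp [add_mul]
  smul_left x y r := by simp [smul_mul_assoc]

theorem pt_cs (a b : B) :
    ‖φ (star a * b)‖ ^ 2 ≤ (φ (star a * a)).re * (φ (star b * b)).re := by
  have h := @InnerProductSpace.Core.inner_mul_inner_self_le ℂ B _ _ _ (ptCore φ) a b
  have h1 : ‖φ (star b * a)‖ = ‖φ (star a * b)‖ := by
    rw [← pt_conj φ a b, norm_star]
  have h2 : ‖φ (star a * b)‖ * ‖φ (star b * a)‖ ≤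
      (φ (star a * a)).re * (φ (star b * b)).re := h
  rw [h1] at h2
  nlinarith

theorem pt_herm (b : B) : φ (star b) = star (φ b) := by
  have hc := pt_cont φ
  have hcl : IsClosed {b : B | φ (star b) = star (φ b)} :=
    isClosed_eq (hc.comp continuous_star) (continuous_star.comp hc)
  have hsub : (Submodule.span ℂ {x : B | ∃ c ∈ G.fib 1, ∃ b, x = c * b} : Set B) ⊆
      {b : B | φ (star b) = star (φ b)} := by
    intro x hx
    refine Submodule.span_induction (p := fun x _ => φ (star x) = star (φ x)) ?_ ?_ ?_ ?_ hx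
    · rintro x ⟨c, hc, b, rfl⟩
      have := pt_conj φ b (star c)
      rw [star_star] at this
      rw [star_mul, ← this]
    · simp
    · intro x y _ _ h1 h2
      simp only [star_add, map_add, h1, h2]
    · intro a x _ h
      simp only [star_smul, map_smul, h, smul_eq_mul, star_mul']
  exact closure_minimal hsub hcl (mem_closure_unit_mul G b)

/-- `φ (b* y* y b) ≤ ‖y‖² φ (b* b)`. -/
theorem pt_conj_le (y b : B) :
    (φ (star b * (star y * y) * b)).re ≤ ‖y‖ ^ 2 * (φ (star b * b)).re := by
  let _ : PartialOrder B := CStarAlgebra.spectralOrder B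
  have : StarOrderedRing B := CStarAlgebra.spectralOrderedRing B
  have h1 : star b * (star y * y) * b ≤ ‖star y * y‖ • (star b * b) :=
    CStarAlgebra.star_left_conjugate_le_norm_smul (hb := IsSelfAdjoint.star_mul_self y)
  have h2 : 0 ≤ ‖star y * y‖ • (star b * b) - star b * (star y * y) * b := sub_nonneg.2 h1
  obtain ⟨z, hz⟩ := CStarAlgebra.nonneg_iff_eq_star_mul_self.mp h2
  have h3 := pt_re φ z
  rw [← hz, map_sub] at h3
  have h4 : φ (‖star y * y‖ • (star b * b)) = (‖star y * y‖ : ℂ) * φ (star b * b) := by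
    have : ‖star y * y‖ • (star b * b) = ((‖star y * y‖ : ℝ) : ℂ) • (star b * b) :=
      (Complex.coe_smul _ _).symm
    rw [this, map_smul, smul_eq_mul]
  rw [h4, Complex.sub_re, Complex.re_ofReal_mul, CStarRing.norm_star_mul_self] at h3
  nlinarith

theorem pt_zero {b : B} (hb : φ (star b * b) = 0) (a : B) : φ (star a * b) = 0 := by
  have h := pt_cs φ a b
  rw [hb] at h
  have : ‖φ (star a * b)‖ ^ 2 ≤ 0 := by simpa using h
  have := pow_eq_zero_iff (two_ne_zero) |>.1 (le_antisymm this (by positivity))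
  exact norm_eq_zero.1 this

theorem pt_zero' {a : B} (ha : φ (star a * a) = 0) (b : B) : φ (star a * b) = 0 := by
  rw [← pt_conj φ a b, pt_zero φ ha b, star_zero]

theorem pt_left (a y : B) (h : φ (star y * y) = 0) : φ (star (a * y) * (a * y)) = 0 := by
  have h1 := pt_conj_le φ a y
  rw [h] at h1
  have e : star (a * y) * (a * y) = star y * (star a * a) * y := by
    rw [star_mul]; noncomm_ring
  have h2 := pt_re φ (a * y)
  have h3 := pt_im φ (a * y)
  rw [← e] at h1
  apply Complex.ext
  · simp only [Complex.zero_re, mul_zero] at h1 ⊢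
    linarith
  · simpa using h3

theorem pt_exists_one : ∃ h ∈ G.fib 1, φ h = 1 := by
  obtain ⟨c, hc, h⟩ := φ.nz
  refine ⟨(φ c)⁻¹ • c, (G.fib 1).smul_mem _ hc, ?_⟩
  simp [h]

theorem pt_mulA {h : B} (hh : h ∈ G.fib 1) (h1 : φ h = 1) {c : B} (hc : c ∈ G.fib 1) (b : B) :
    φ (c * b) = φ c * φ (h * b) := by
  set y := c - φ c • h with hy
  have hyC : y ∈ G.fib 1 := (G.fib 1).sub_mem hc ((G.fib 1).smul_mem _ hh)
  have hy0 : φ y = 0 := by simp [hy, h1]
  have h2 : φ (star (star y) * star y) = 0 := by
    rw [star_star, φ.mult y hyC (star y) (unit_star G hyC), hy0, zero_mul]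
  have h3 : φ (y * b) = 0 := by
    have := pt_zero' φ h2 b
    rwa [star_star] at this
  have h4 : y * b = c * b - φ c • (h * b) := by rw [hy, sub_mul, smul_mul_assoc]
  rw [h4, map_sub, map_smul, smul_eq_mul, sub_eq_zero] at h3
  exact h3

theorem pt_unit {h : B} (hh : h ∈ G.fib 1) (h1 : φ h = 1) (b : B) : φ (h * b) = φ b := by
  have hc := pt_cont φ
  have hcl : IsClosed {b : B | φ (h * b) = φ b} :=
    isClosed_eq (hc.comp (continuous_const.mul continuous_id)) hc
  have hsub : (Submodule.span ℂ {x : B | ∃ c ∈ G.fib 1, ∃ b, x = c * b} : Set B) ⊆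
      {b : B | φ (h * b) = φ b} := by
    intro x hx
    refine Submodule.span_induction (p := fun x _ => φ (h * x) = φ x) ?_ ?_ ?_ ?_ hx
    · rintro x ⟨c, hc, b, rfl⟩
      rw [← mul_assoc, pt_mulA φ hh h1 (unit_mul G hh hc) b, φ.mult h hh c hc, h1, one_mul,
        ← pt_mulA φ hh h1 hc b]
    · simp
    · intro x y _ _ h1 h2
      simp only [mul_add, map_add, h1, h2]
    · intro a x _ h
      simp only [mul_smul_comm, map_smul, h]
  exact closure_minimal hsub hcl (mem_closure_unit_mul G b)

theorem pt_mulL {c : B} (hc : c ∈ G.fib 1) (b : B) : φ (c * b) = φ c * φ b := by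
  obtain ⟨h, hh, h1⟩ := pt_exists_one φ
  rw [pt_mulA φ hh h1 hc b, pt_unit φ hh h1]

theorem pt_mulR {c : B} (hc : c ∈ G.fib 1) (b : B) : φ (b * c) = φ b * φ c := by
  have h1 : φ (star (b * c)) = star (φ (b * c)) := pt_herm φ _
  have h2 : φ (star (b * c)) = star (φ c) * star (φ b) := by
    rw [star_mul, pt_mulL φ (unit_star G hc), pt_herm, pt_herm]
  have h3 := h1.symm.trans h2
  have h4 := congrArg star h3
  simpa [mul_comm] using h4

theorem pt_null {b : B} (hb : φ (star b * b) = 0) : φ b = 0 := by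
  obtain ⟨h, hh, h1⟩ := pt_exists_one φ
  have := pt_zero φ hb (star h)
  rwa [star_star, pt_unit φ hh h1] at this

theorem pt_oned (hG : G.Comm) {q : Q} {b b' : B} (hb : b ∈ G.fib q) (hb' : b' ∈ G.fib q) :
    φ (star b * b') * φ (star b' * b) = φ (star b * b) * φ (star b' * b') := by
  have hp := smem G hb hb
  have hp' := smem G hb' hb'
  have hu := smem G hb hb'
  have hv := smem G hb' hb
  have hw := mems G hb hb'
  have hw' := mems G hb' hb
  have key : (b * star b') * (b' * star b) = (b' * star b) * (b * star b') :=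
    hG _ hw _ hw'
  have key2 : (star b * b) * ((star b' * b') * (star b * b)) =
      (star b * b') * ((star b * b) * (star b' * b)) := by
    have e1 : (star b * b) * ((star b' * b') * (star b * b)) =
        star b * ((b * star b') * (b' * star b)) * b := by noncomm_ring
    have e2 : (star b * b') * ((star b * b) * (star b' * b)) =
        star b * ((b' * star b) * (b * star b')) * b := by noncomm_ring
    rw [e1, e2, key]
  have h := congrArg φ.toFun key2
  rw [pt_mulL φ hp, pt_mulL φ hp', pt_mulL φ hu, pt_mulL φ hp] at h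
  by_cases h0 : φ (star b * b) = 0
  · have h1 : φ (star b * b') = 0 := pt_zero' φ h0 b'
    rw [h0, h1]
    simp
  · have h2 : φ (star b * b) * (φ (star b' * b') * φ (star b * b) -
        φ (star b * b') * φ (star b' * b)) = 0 := by linear_combination h
    rcases mul_eq_zero.1 h2 with h3 | h3
    · exact absurd h3 h0
    · linear_combination -h3

theorem pt_move (hG : G.Comm) {q : Q} {b : B} (hb : b ∈ G.fib q) (h0 : φ (star b * b) ≠ 0) :
    ∃ ψ : G.Pt, ∀ y, ψ y * φ (star b * b) = φ (star b * y * b) := by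
  have hre : 0 < (φ (star b * b)).re := by
    rcases (pt_re φ b).lt_or_eq with h | h
    · exact h
    · exact absurd (Complex.ext h.symm (pt_im φ b)) h0
  have hval : φ (star b * b) = ((φ (star b * b)).re : ℂ) := by
    apply Complex.ext
    · simp
    · simpa using pt_im φ b
  set r := (φ (star b * b)).re with hr
  let f : B →ₗ[ℂ] ℂ :=
    { toFun := fun y => (r : ℂ)⁻¹ * φ (star b * y * b)
      map_add' := fun x y => by simp [mul_add, add_mul]
      map_smul' := fun c x => by
        simp only [mul_smul_comm, smul_mul_assoc, map_smul, smul_eq_mul, RingHom.id_apply]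
        ring }
  have hrC : (r : ℂ) ≠ 0 := by exact_mod_cast hre.ne'
  have hfr : ∀ y, f y * φ (star b * b) = φ (star b * y * b) := by
    intro y
    rw [hval]
    change (r : ℂ)⁻¹ * φ (star b * y * b) * (r : ℂ) = _
    field_simp
  refine ⟨⟨f, ?_, ?_, ?_, ?_⟩, hfr⟩
  · intro y
    have h1 := pt_cs φ b (y * b)
    have e : star (y * b) * (y * b) = star b * (star y * y) * b := by
      rw [star_mul]; noncomm_ring
    rw [e] at h1
    have h2 := pt_conj_le φ y b
    have h3 : ‖φ (star b * (y * b))‖ ^ 2 ≤ (r * ‖y‖) ^ 2 := by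
      calc _ ≤ r * (φ (star b * (star y * y) * b)).re := h1
        _ ≤ r * (‖y‖ ^ 2 * r) := by gcongr
        _ = (r * ‖y‖) ^ 2 := by ring
    have h4 : ‖φ (star b * (y * b))‖ ≤ r * ‖y‖ :=
      le_of_sq_le_sq h3 (by positivity)
    change ‖(r : ℂ)⁻¹ * φ (star b * y * b)‖ ≤ ‖y‖
    rw [norm_mul, norm_inv, Complex.norm_real, Real.norm_of_nonneg hre.le, mul_assoc]
    rw [inv_mul_le_iff₀ hre]
    exact h4
  · intro y
    have h1 := φ.pos (y * b)
    have e : star (y * b) * (y * b) = star b * (star y * y) * b := by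
      rw [star_mul]; noncomm_ring
    rw [e] at h1
    change 0 ≤ (r : ℂ)⁻¹ * φ (star b * (star y * y) * b)
    have h2 : (0 : ℂ) ≤ (r : ℂ)⁻¹ := by
      rw [← Complex.ofReal_inv]
      exact_mod_cast (inv_pos.2 hre).le
    exact mul_nonneg h2 h1
  · intro c hc c' hc'
    have hbb := mems G hb hb
    have hc1 : star b * c * b ∈ G.fib 1 := by
      have := smem G hb (unit_l G hc hb)
      rwa [← mul_assoc] at this
    have hc2 : star b * c' * b ∈ G.fib 1 := by
      have := smem G hb (unit_l G hc' hb)
      rwa [← mul_assoc] at this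
    have hc3 : star b * (c * c') * b ∈ G.fib 1 := by
      have := smem G hb (unit_l G (unit_mul G hc hc') hb)
      rwa [← mul_assoc] at this
    have e1 : (star b * c * b) * (star b * c' * b) = (star b * (c * c') * b) * (star b * b) := by
      have h5 : (b * star b) * c' = c' * (b * star b) := hG _ hbb _ hc'
      calc (star b * c * b) * (star b * c' * b) = star b * c * ((b * star b) * c') * b := by
            noncomm_ring
        _ = _ := by rw [h5]; noncomm_ring
    have h6 := congrArg φ.toFun e1
    rw [pt_mulL φ hc1, pt_mulL φ hc3] at h6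
    rw [← hfr c, ← hfr c', ← hfr (c * c')] at h6
    have h7 : (φ (star b * b)) ≠ 0 := h0
    have h8 : φ (star b * b) * φ (star b * b) * (f (c * c') - f c * f c') = 0 := by
      linear_combination -h6
    rcases mul_eq_zero.1 h8 with h9 | h9
    · exact absurd h9 (mul_ne_zero h7 h7)
    · linear_combination h9
  · refine ⟨b * star b, mems G hb hb, fun h => ?_⟩
    have h1 := hfr (b * star b)
    rw [h, zero_mul] at h1
    have e : star b * (b * star b) * b = (star b * b) * (star b * b) := by noncomm_ring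
    rw [e, pt_mulL φ (smem G hb hb)] at h1
    exact h0 (mul_self_eq_zero.1 h1.symm)

end fun_facts

/-- The first pointwise facts. -/
theorem pf1 : S_PF1 := by
  intro Q _ B _ G hG
  exact
    { herm := fun φ b => pt_herm φ b
      cs := fun φ a b => pt_cs φ a b
      mulL := fun φ c hc b => pt_mulL φ hc b
      mulR := fun φ c hc b => pt_mulR φ hc b
      oned := fun φ q b hb b' hb' => pt_oned φ hG hb hb'
      move := fun φ q b hb h => pt_move φ hG hb h
      left := fun φ a y h => pt_left φ a y h }

end Pool.Agent.Helper39.Uct
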