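import Pool.Agent.Helper39.Uct.PF1

open scoped ComplexOrder

namespace Pool.Agent.Helper39.Uct

open Fib

section

variable {B : Type} [NonUnitalCStarAlgebra B]

/-- The subalgebra of all `e * y * e`. -/
def cornerAlg (e : B) (he : IsSelfAdjoint e) : NonUnitalStarSubalgebra ℂ B where
  carrier := {x | ∃ y, x = e * y * e}
  add_mem' := by
    rintro _ _ ⟨y, rfl⟩ ⟨z, rfl⟩
    exact ⟨y + z, by noncomm_ring⟩
  zero_mem' := ⟨0, by simp⟩
  mul_mem' := by
    rintro _ _ ⟨y, rfl⟩ ⟨z, rfl⟩
    exact ⟨y * (e * e) * z, by noncomm_ring⟩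
  smul_mem' := by
    rintro c _ ⟨y, rfl⟩
    exact ⟨c • y, by rw [mul_smul_comm, smul_mul_assoc]⟩
  star_mem' := by
    rintro _ ⟨y, rfl⟩
    exact ⟨star y, by rw [star_mul, star_mul, he.star_eq]; noncomm_ring⟩

theorem cube_ne {e : B} (he : IsSelfAdjoint e) (h0 : e ≠ 0) : e * e * e ≠ 0 := by
  intro h
  have h1 : star (e * e) * (e * e) = 0 := by
    rw [star_mul, he.star_eq]
    calc e * e * (e * e) = (e * e * e) * e := by noncomm_ring
      _ = 0 := by rw [h, zero_mul]
  have h2 : e * e = 0 := CStarRing.star_mul_self_eq_zero_iff _ |>.1 h1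
  have h3 : star e * e = 0 := by rw [he.star_eq, h2]
  exact h0 (CStarRing.star_mul_self_eq_zero_iff _ |>.1 h3)

end

variable {Q : Type} [Group Q] {B : Type} [NonUnitalCStarAlgebra B] (G : Fib Q B)

/-- The generating set of the fibre over `t`. -/
def genSet {M : Subgroup Q} {Q' : Type} [Group Q'] (f : M →* Q') (e : B) (t : Q') : Set B :=
  {x | ∃ q : M, f q = t ∧ ∃ b ∈ G.fib (q : Q), x = e * b * e}

theorem rg : S_RG := by
  intro Q _ B _ G M Q' _ f e he h0 hM hK
  let H := (cornerAlg e he).topologicalClosure
  have hcl : IsClosed (H : Set B) := (cornerAlg e he).isClosed_topologicalClosure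
  let F : Q' → Submodule ℂ B := fun t => (Submodule.span ℂ (genSet G f e t)).topologicalClosure
  have hF : ∀ t, IsClosed (F t : Set B) := fun t => Submodule.isClosed_topologicalClosure _
  have hHc : (H : Set B) = closure {x | ∃ y, x = e * y * e} := rfl
  -- the algebra over the kernel
  let K0 : Submodule ℂ B := ⨆ k : f.ker, G.fib ((k : M) : Q)
  have hK0 : ∀ x ∈ K0, ∀ y ∈ K0, x * y ∈ K0 := by
    intro x hx y hy
    refine Submodule.iSup_induction _ (motive := fun x => x * y ∈ K0) hx ?_ ?_ ?_
    · intro k b hb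
      refine Submodule.iSup_induction _ (motive := fun y => b * y ∈ K0) hy ?_ ?_ ?_
      · intro k' b' hb'
        have : b * b' ∈ G.fib (((k * k' : f.ker) : M) : Q) := by
          simpa using G.mul_mem _ _ _ _ hb hb'
        exact Submodule.mem_iSup_of_mem (k * k') this
      · simp
      · intro u v hu hv
        rw [mul_add]
        exact K0.add_mem hu hv
    · simp
    · intro u v hu hv
      rw [add_mul]
      exact K0.add_mem hu hv
  have hee : e * e ∈ closure (K0 : Set B) :=
    map_mem_closure₂ continuous_mul hK hK (fun x hx y hy => hK0 x hx y hy)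
  have hbzb : ∀ (q q' : M) (b b' : B), b ∈ G.fib (q : Q) → b' ∈ G.fib (q' : Q) →
      ∀ z ∈ closure (K0 : Set B), e * (b * z * b') * e ∈ F (f q * f q') := by
    intro q q' b b' hb hb' z hz
    have hc : IsClosed {z : B | e * (b * z * b') * e ∈ F (f q * f q')} :=
      (hF _).preimage (by fun_prop)
    refine closure_minimal ?_ hc hz
    intro z hz
    refine Submodule.iSup_induction _ (motive := fun z => e * (b * z * b') * e ∈ F (f q * f q'))
      hz ?_ ?_ ?_
    · intro k x hx
      refine Submodule.le_topologicalClosure _ (Submodule.subset_span ⟨q * k * q', ?_, _, ?_, rfl⟩)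
      · rw [map_mul, map_mul, (MonoidHom.mem_ker).1 k.2, mul_one]
      · simpa using G.mul_mem _ _ _ _ (G.mul_mem _ _ _ _ hb hx) hb'
    · simp
    · intro u v hu hv
      have : e * (b * (u + v) * b') * e = e * (b * u * b') * e + e * (b * v * b') * e := by
        noncomm_ring
      rw [this]
      exact (F _).add_mem hu hv
  have hgen : ∀ p t, ∀ x ∈ genSet G f e p, ∀ y ∈ genSet G f e t, x * y ∈ F (p * t) := by
    rintro p t _ ⟨q, rfl, b, hb, rfl⟩ _ ⟨q', rfl, b', hb', rfl⟩
    have := hbzb q q' b b' hb hb' _ hee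
    have e1 : e * b * e * (e * b' * e) = e * (b * (e * e) * b') * e := by noncomm_ring
    rwa [e1]
  have hspan : ∀ p t, ∀ x ∈ Submodule.span ℂ (genSet G f e p),
      ∀ y ∈ Submodule.span ℂ (genSet G f e t), x * y ∈ F (p * t) := by
    intro p t x hx y hy
    refine Submodule.span_induction (p := fun x _ => x * y ∈ F (p * t)) ?_ ?_ ?_ ?_ hx
    · intro x hx
      refine Submodule.span_induction (p := fun y _ => x * y ∈ F (p * t)) ?_ ?_ ?_ ?_ hy
      · intro y hy
        exact hgen p t x hx y hy
      · simp
      · intro u v _ _ hu hv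
        rw [mul_add]
        exact (F _).add_mem hu hv
      · intro a u _ hu
        rw [mul_smul_comm]
        exact (F _).smul_mem _ hu
    · simp
    · intro u v _ _ hu hv
      rw [add_mul]
      exact (F _).add_mem hu hv
    · intro a u _ hu
      rw [smul_mul_assoc]
      exact (F _).smul_mem _ hu
  have hmulF : ∀ p t, ∀ x ∈ F p, ∀ y ∈ F t, x * y ∈ F (p * t) := by
    intro p t x hx y hy
    have := map_mem_closure₂ (f := fun x y : B => x * y) continuous_mul hx hy
      (u := (F (p * t) : Set B)) (fun x hx y hy => hspan p t x hx y hy)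
    rwa [(hF _).closure_eq] at this
  have hstarF : ∀ p, ∀ x ∈ F p, star x ∈ F p⁻¹ := by
    intro p x hx
    have := map_mem_closure (f := fun x : B => star x) continuous_star hx
      (t := (F p⁻¹ : Set B)) (fun x hx => by
        refine Submodule.span_induction (p := fun x _ => star x ∈ F p⁻¹) ?_ ?_ ?_ ?_ hx
        · rintro _ ⟨q, rfl, b, hb, rfl⟩
          refine Submodule.le_topologicalClosure _
            (Submodule.subset_span ⟨q⁻¹, map_inv f q, star b, ?_, ?_⟩)
          · simpa using G.star_mem _ _ hb
          · rw [star_mul, star_mul, he.star_eq]; noncomm_ring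
        · simp
        · intro u v _ _ hu hv
          rw [star_add]
          exact (F _).add_mem hu hv
        · intro a u _ hu
          rw [star_smul]
          exact (F _).smul_mem _ hu)
    rwa [(hF _).closure_eq] at this
  let inst : NonUnitalCStarAlgebra H :=
    NonUnitalStarSubalgebra.nonUnitalCStarAlgebra H (h_closed := hcl)
  let ι : H →⋆ₙₐ[ℂ] B := NonUnitalStarSubalgebraClass.subtype H
  have hι : ∀ h : H, ι h = (h : B) := fun h => rfl
  refine ⟨H, inst, ι, ⟨Subtype.val_injective, ?_⟩, ?_, ?_, ?_⟩
  · intro x y a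
    have h1 : (x : B) * a * (y : B) ∈ (H : Set B) := by
      rw [hHc]
      refine map_mem_closure₂ (f := fun x y : B => x * a * y) (by fun_prop)
        (show (x : B) ∈ closure {x | ∃ y, x = e * y * e} from x.2)
        (show (y : B) ∈ closure {x | ∃ y, x = e * y * e} from y.2) ?_
      rintro _ ⟨u, rfl⟩ _ ⟨v, rfl⟩
      exact ⟨u * e * a * e * v, by noncomm_ring⟩
    exact ⟨⟨_, h1⟩, rfl⟩
  · have h1 : e * e * e ∈ (H : Set B) := subset_closure ⟨e, rfl⟩
    refine ⟨⟨⟨e * e * e, h1⟩, 0, fun h => ?_⟩⟩
    exact cube_ne he h0 (congrArg Subtype.val h)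
  · rw [← hHc]
    ext x
    exact ⟨fun ⟨h, hh⟩ => hh ▸ h.2, fun hx => ⟨⟨x, hx⟩, rfl⟩⟩
  · let fib' : Q' → Submodule ℂ H := fun t => (F t).comap
      ((NonUnitalStarSubalgebraClass.subtype H : H →⋆ₙₐ[ℂ] B) : H →ₗ[ℂ] B)
    have hfib' : ∀ t (h : H), h ∈ fib' t ↔ (h : B) ∈ F t := fun t h => Iff.rfl
    refine ⟨⟨fib', ?_, ?_, ?_, ?_⟩, ?_⟩
    · intro t
      exact (hF t).preimage continuous_subtype_val
    · intro p q x y hx hy
      exact hmulF p q _ hx _ hy
    · intro q x hx
      exact hstarF q _ hx
    · refine top_le_iff.1 fun h _ => ?_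
      set V : Submodule ℂ H := ⨆ t, fib' t with hV
      let Φ : B →ₗ[ℂ] H :=
        { toFun := fun y => ⟨e * y * e, subset_closure ⟨y, rfl⟩⟩
          map_add' := fun x y => Subtype.ext (by
            change e * (x + y) * e = e * x * e + e * y * e
            noncomm_ring)
          map_smul' := fun c x => Subtype.ext (by
            change e * (c • x) * e = c • (e * x * e)
            rw [mul_smul_comm, smul_mul_assoc]) }
      have hΦc : Continuous Φ := by
        refine Continuous.subtype_mk ?_ _
        fun_prop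
      have hΦV : ∀ y, Φ y ∈ closure (V : Set H) := by
        intro y
        have hy : y ∈ closure ((⨆ q, G.fib q : Submodule ℂ B) : Set B) := by
          have : y ∈ (⨆ q, G.fib q).topologicalClosure := by rw [G.dense]; trivial
          exact this
        refine map_mem_closure hΦc hy ?_
        intro z hz
        refine Submodule.iSup_induction _ (motive := fun z => Φ z ∈ V) hz ?_ ?_ ?_
        · intro q b hb
          by_cases hq : q ∈ M
          · refine Submodule.mem_iSup_of_mem (f ⟨q, hq⟩) ?_
            rw [hfib']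
            exact Submodule.le_topologicalClosure _
              (Submodule.subset_span ⟨⟨q, hq⟩, rfl, b, hb, rfl⟩)
          · have : Φ b = 0 := Subtype.ext (hM q hq b hb)
            rw [this]
            exact V.zero_mem
        · rw [map_zero]; exact V.zero_mem
        · intro u v hu hv
          rw [map_add]
          exact V.add_mem hu hv
      change h ∈ closure (V : Set H)
      have h1 : h ∈ closure (Set.range Φ) := by
        rw [closure_subtype]
        have h2 : (h : B) ∈ closure {x | ∃ y, x = e * y * e} := h.2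
        refine closure_mono ?_ h2
        rintro _ ⟨y, rfl⟩
        exact ⟨Φ y, ⟨y, rfl⟩, rfl⟩
      have h3 : closure (Set.range Φ) ⊆ closure (V : Set H) :=
        closure_minimal (by rintro _ ⟨y, rfl⟩; exact hΦV y) isClosed_closure
      exact h3 h1
    · intro t h
      exact Iff.rfl

end Pool.Agent.Helper39.Uct
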