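import Pool.Agent.Helper10.Uct.TLV
import Pool.Agent.Helper10.Uct.FP
import Pool.Agent.Helper90.Uct.St
import Pool.Agent.Helper90.Uct.Zorn
import Pool.Agent.Helper43.Uct.TI
import Pool.Agent.Helper43.Uct.GV
import Pool.Agent.Helper42.Uct.RC
import Pool.Agent.Helper42.Uct.QT
import Pool.Agent.Helper42.Uct.L2
import Pool.Agent.Helper78.Uct.NL
import Pool.Agent.Helper78.Uct.AE
import Pool.Agent.Helper31.Uct.GL
import Pool.Agent.Helper48.Uct.PFacts
import Pool.Agent.Helper93.Uct.PE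
import Pool.Agent.Helper52.Uct.Inv
import Pool.Agent.Helper17.Uct.Gen
import Pool.Agent.Helper17.Uct.Sel
import Pool.Agent.Helper89.Uct.VAN
import Pool.Agent.Helper77.Uct.NRM
import Pool.Agent.Helper39.Uct.AP
import Pool.Agent.Helper39.Uct.RG
import Pool.Agent.Helper39.Uct.PF1

/-! The assembled structure theorem. -/

namespace Pool.Agent.Helper39.Uct

theorem t_PF : S_PF := Helper48.Uct.pf pf1

theorem t_PE : S_PE := Helper93.Uct.pe

theorem t_QT : S_QT := Helper42.Uct.stmtQT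

theorem t_RC : S_RC := Helper42.Uct.stmtRC t_QT

theorem t_HT : S_HT := Helper42.Uct.stmtHT

theorem t_AE : S_AE := Helper78.Uct.ae Helper78.Uct.nl

theorem t_VAN : S_VAN := Helper89.Uct.van t_PF

theorem t_BES : S_BES := Helper89.Uct.bes t_PF t_VAN

theorem t_L2 : S_L2 := Helper42.Uct.stmtL2 (Helper52.Uct.inv t_PF)
  (Helper17.Uct.gen t_PF t_PE) t_VAN t_BES

theorem t_NRM : S_NRM := Helper77.Uct.nrm t_PF t_PE

theorem t_SEL : S_SEL := Helper17.Uct.sel t_PF t_PE Helper43.Uct.acc Helper31.Uct.gl t_NRM t_L2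

theorem t_FP : S_FP := Helper10.Uct.fp t_PF t_PE t_AE

theorem t_AP : S_AP := ap t_PE t_PF

theorem t_ST : S_ST := Helper90.Uct.st t_SEL t_FP t_AP rg t_HT

theorem t_MT : S_MT := Helper90.Uct.mt t_ST Helper43.Uct.gi

theorem t_ZORN : S_ZORN := Helper90.Uct.zorn t_QT

theorem t_TQ : S_TQ := Helper43.Uct.tq t_RC

theorem t_TI : S_TI := Helper43.Uct.ti rg t_HT t_MT

theorem t_TV : S_TV := Helper10.Uct.tv t_ZORN t_TQ t_TI

theorem t_TLV : S_TLV := Helper10.Uct.tlv t_TV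

theorem t_GR : S_GR := Helper10.Uct.gr t_TLV

end Pool.Agent.Helper39.Uct
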