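import Pool.Agent.Helper39.Uct.Main

/-! The countability assumption on the group is not needed. -/

open scoped ComplexOrder

namespace Pool.Agent.Helper39.Uct

open Fib Helper10.Uct Helper43.Uct

/-- TLV without the countability of the group. -/
theorem tlv_any (𝒞 : ∀ (A : Type) [NonUnitalCStarAlgebra A], Prop) (h𝒞 : UctLike 𝒞)
    (B : Type) [NonUnitalCStarAlgebra B] [TopologicalSpace.SeparableSpace B]
    (Q : Type) [Group Q] (hQ : ∀ H : Subgroup Q, H.FG → VPC H)
    (G : Fib Q B) (A : Type) [NonUnitalCStarAlgebra A]
    (hA : IsTypeI A) (ι : A →⋆ₙₐ[ℂ] B) (hι : Set.range ι = (G.fib 1 : Set B)) : 𝒞 B := by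
  classical
  have : SecondCountableTopology B := UniformSpace.secondCountable_of_separable B
  set S : Submodule ℂ B := ⨆ q, G.fib q with hS
  obtain ⟨T, hTS, hTc, hTd⟩ : ∃ T : Set B, T ⊆ (S : Set B) ∧ T.Countable ∧
      (S : Set B) ⊆ closure T :=
    (TopologicalSpace.IsSeparable.of_separableSpace (S : Set B)).exists_countable_dense_subset
  have hfin : ∀ t : B, t ∈ T → ∃ F : Finset Q, t ∈ ⨆ q ∈ F, G.fib q := by
    intro t ht
    have h1 : t ∈ S := hTS ht
    rw [hS, iSup_eq_iSup_finset, Submodule.mem_iSup_of_directed] at h1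
    · exact h1
    · apply Monotone.directed_le
      intro F F' hFF
      exact biSup_mono (fun q hq => hFF hq)
  choose! F hF using hfin
  set C : Set Q := ⋃ t ∈ T, (F t : Set Q) with hC
  have hCc : C.Countable := hTc.biUnion (fun t _ => (F t).countable_toSet)
  set Q0 : Subgroup Q := Subgroup.closure C with hQ0
  have hQ0c : Countable Q0 := by
    have : Countable C := hCc.to_subtype
    have h1 : (FreeGroup.lift (fun c : C => (c : Q))).range = Q0 := by
      rw [FreeGroup.range_lift_eq_closure, Subtype.range_coe]
    rw [← h1]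
    have h2 : Countable (FreeGroup C) := Quot.mk_surjective.countable
    exact ((FreeGroup.lift (fun c : C => (c : Q))).rangeRestrict_surjective).countable
  obtain ⟨D, _, j, hj, hjr, G', hG'⟩ := exists_restrict G Q0
  have htop : ∀ b : B, b ∈ Set.range j := by
    intro b
    rw [hjr]
    have h1 : b ∈ S.topologicalClosure := by rw [G.dense]; trivial
    have h2 : (S : Set B) ⊆ (fibSpan G Q0 : Set B) := by
      refine hTd.trans ?_
      apply closure_minimal _ (Submodule.isClosed_topologicalClosure _)
      intro t ht
      have h3 : (⨆ q ∈ F t, G.fib q) ≤ fibSpan G Q0 := by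
        refine iSup₂_le ?_
        intro q hq
        apply fib_le_fibSpan
        apply Subgroup.subset_closure
        rw [hC]
        exact Set.mem_biUnion ht hq
      exact h3 (hF t ht)
    exact closure_minimal h2 (Submodule.isClosed_topologicalClosure _) h1
  have hsub : Set.range ι ⊆ Set.range j := fun x _ => htop x
  obtain ⟨f', hf'⟩ := lift_hom ι j hj hsub
  have hiso : Isometry j := NonUnitalStarAlgHom.isometry j hj
  have : SecondCountableTopology D :=
    hiso.isUniformInducing.isInducing.secondCountableTopology
  have hD : 𝒞 D := by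
    refine t_TLV 𝒞 h𝒞 D Q0 ?_ G' A hA f' ?_
    · intro H hH
      have h1 : VPC (H.map Q0.subtype) := by
        apply hQ
        rw [Subgroup.fg_iff_submonoid_fg] at hH ⊢
        exact hH.map Q0.subtype
      exact vpc_of_injective (H.equivMapOfInjective Q0.subtype
        (Subgroup.subtype_injective Q0)).toMonoidHom (MulEquiv.injective _) h1
    · ext x
      constructor
      · rintro ⟨a, rfl⟩
        have h1 : ι a ∈ (G.fib 1 : Set B) := by rw [← hι]; exact Set.mem_range_self a
        show f' a ∈ G'.fib 1
        rw [hG', hf']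
        exact h1
      · intro hx
        have h1 : j x ∈ G.fib ((1 : Q0) : Q) := (hG' 1 x).1 hx
        have h2 : j x ∈ Set.range ι := by rw [hι]; exact h1
        obtain ⟨a, ha⟩ := h2
        exact ⟨a, hj (by rw [hf', ha])⟩
  refine h𝒞.union B (fun _ => D) (fun _ => j) (fun _ => hj) (fun _ => le_refl _) ?_ (fun _ => hD)
  intro x
  apply subset_closure
  exact Set.mem_iUnion.2 ⟨0, htop x⟩

end Pool.Agent.Helper39.Uct
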