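import Mathlib

/-!
# Weakly graded C*-algebras over virtually polycyclic groups

Definitions for the structure theorem on C*-algebras that are weakly graded by a
(locally) virtually polycyclic group with a type I unit fibre.
-/

open scoped ComplexOrder

namespace Pool.Agent.Helper39.Uct

/-- `Q` is virtually polycyclic: every subgroup is finitely generated and some subgroup of
finite index is solvable (Mal'cev's description of polycyclic-by-finite groups). -/
def VPC (Q : Type) [Group Q] : Prop :=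
  (∀ H : Subgroup Q, H.FG) ∧ ∃ S : Subgroup Q, S.FiniteIndex ∧ Group.IsSolvable S

/-- A weak grading of the C*-algebra `B` by the group `Q`: closed subspaces `fib q` with
`fib p * fib q ⊆ fib (p * q)`, `star (fib q) ⊆ fib q⁻¹` whose sum is dense.  The sum is not
required to be direct. -/
structure Fib (Q : Type) [Group Q] (B : Type) [NonUnitalCStarAlgebra B] where
  fib : Q → Submodule ℂ B
  closed : ∀ q, IsClosed (fib q : Set B)
  mul_mem : ∀ p q x y, x ∈ fib p → y ∈ fib q → x * y ∈ fib (p * q)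
  star_mem : ∀ q x, x ∈ fib q → star x ∈ fib q⁻¹
  dense : (⨆ q, fib q).topologicalClosure = ⊤

namespace Fib

variable {Q : Type} [Group Q] {B : Type} [NonUnitalCStarAlgebra B]

/-- The unit fibre is commutative. -/
def Comm (G : Fib Q B) : Prop := ∀ x ∈ G.fib 1, ∀ y ∈ G.fib 1, x * y = y * x

/-- Topologically graded (Exel): the projection of finite sums to the unit fibre is
contractive. -/
def Top (G : Fib Q B) : Prop :=
  ∀ (s : Finset Q) (b : Q → B), (∀ q ∈ s, b q ∈ G.fib q) → 1 ∈ s → ‖b 1‖ ≤ ‖∑ q ∈ s, b q‖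

/-- A point: a positive functional of norm at most one that is multiplicative and nonzero on
the unit fibre. -/
structure Pt (G : Fib Q B) where
  toFun : B →ₗ[ℂ] ℂ
  bound : ∀ b, ‖toFun b‖ ≤ ‖b‖
  pos : ∀ b, 0 ≤ toFun (star b * b)
  mult : ∀ c ∈ G.fib 1, ∀ c' ∈ G.fib 1, toFun (c * c') = toFun c * toFun c'
  nz : ∃ c ∈ G.fib 1, toFun c ≠ 0

instance (G : Fib Q B) : CoeFun G.Pt (fun _ => B → ℂ) := ⟨fun φ => φ.toFun⟩

variable (G : Fib Q B)

/-- The stabiliser of a point. -/
def St (φ : G.Pt) : Set Q :=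
  {q | (∃ b ∈ G.fib q, φ (star b * b) ≠ 0) ∧
    ∀ b ∈ G.fib q, ∀ c ∈ G.fib 1, φ (star b * c * b) = φ c * φ (star b * b)}

/-- `q` and `a` commute, and the elements of the fibres over `q` and `a` commute at `φ`. -/
def Cm (φ : G.Pt) (q a : Q) : Prop :=
  q * a = a * q ∧ ∀ b ∈ G.fib q, ∀ b' ∈ G.fib a,
    φ (star (b * b' - b' * b) * (b * b' - b' * b)) = 0

/-- The elements of the stabiliser of `φ` that commute with `L` at `φ`. -/
def DD (φ : G.Pt) (L : Subgroup Q) : Set Q := {q | q ∈ G.St φ ∧ ∀ l ∈ L, G.Cm φ q l}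

/-- The elements `q` that do not move the support of `d` away from itself. -/
def M0 (d : B) : Set Q := {q | ∃ b ∈ G.fib q, d * b * d ≠ 0}

end Fib

/-- Type I (Pedersen): every nonzero quotient contains a nonzero abelian self-adjoint
element. -/
def IsTypeI (A : Type) [NonUnitalCStarAlgebra A] : Prop :=
  ∀ (A' : Type) [NonUnitalCStarAlgebra A'] (π : A →⋆ₙₐ[ℂ] A'), Function.Surjective π →
    Nontrivial A' → ∃ a : A', IsSelfAdjoint a ∧ a ≠ 0 ∧
      ∀ x y : A', (a * x * a) * (a * y * a) = (a * y * a) * (a * x * a)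

/-- `ι` embeds `H` as a hereditary C*-subalgebra of `B`. -/
def Hered {H B : Type} [NonUnitalCStarAlgebra H] [NonUnitalCStarAlgebra B]
    (ι : H →⋆ₙₐ[ℂ] B) : Prop :=
  Function.Injective ι ∧ ∀ (x y : H) (a : B), ι x * a * ι y ∈ Set.range ι

/-- The closed ideal generated by the range of `ι` is everything. -/
def Full {H B : Type} [NonUnitalCStarAlgebra H] [NonUnitalCStarAlgebra B]
    (ι : H →⋆ₙₐ[ℂ] B) : Prop :=
  (Submodule.span ℂ {z : B | ∃ (a : B) (x : H) (b : B), z = a * ι x * b}).topologicalClosure = ⊤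

/-- The four permanence properties: (graded) topologically graded algebras over virtually
polycyclic groups with commutative unit fibre, (ext) extensions, (union) closures of
increasing unions, (morita) full hereditary subalgebras. -/
structure UctLike (𝒞 : ∀ (A : Type) [NonUnitalCStarAlgebra A], Prop) : Prop where
  graded : ∀ (A : Type) [NonUnitalCStarAlgebra A] [TopologicalSpace.SeparableSpace A]
    (Q : Type) [Group Q], VPC Q → ∀ G : Fib Q A, G.Comm → G.Top → 𝒞 A
  ext : ∀ (I A A' : Type) [NonUnitalCStarAlgebra I] [NonUnitalCStarAlgebra A]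
    [NonUnitalCStarAlgebra A'] [TopologicalSpace.SeparableSpace A]
    (ι : I →⋆ₙₐ[ℂ] A) (π : A →⋆ₙₐ[ℂ] A'), Function.Injective ι → Function.Surjective π →
    (∀ a : A, π a = 0 ↔ a ∈ Set.range ι) → 𝒞 I → 𝒞 A' → 𝒞 A
  union : ∀ (A : Type) [NonUnitalCStarAlgebra A] [TopologicalSpace.SeparableSpace A]
    (D : ℕ → Type) [∀ n, NonUnitalCStarAlgebra (D n)] (ι : ∀ n, D n →⋆ₙₐ[ℂ] A),
    (∀ n, Function.Injective (ι n)) → (∀ n, Set.range (ι n) ⊆ Set.range (ι (n + 1))) →
    Dense (⋃ n, Set.range (ι n)) → (∀ n, 𝒞 (D n)) → 𝒞 A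
  morita : ∀ (H A : Type) [NonUnitalCStarAlgebra H] [NonUnitalCStarAlgebra A]
    [TopologicalSpace.SeparableSpace A] (ι : H →⋆ₙₐ[ℂ] A), Hered ι → Full ι → 𝒞 H → 𝒞 A

/-- `B` has a nonzero hereditary subalgebra that is topologically graded by a virtually
polycyclic group with commutative unit fibre. -/
def Good (B : Type) [NonUnitalCStarAlgebra B] : Prop :=
  ∃ (H : Type) (_ : NonUnitalCStarAlgebra H) (ι : H →⋆ₙₐ[ℂ] B), Hered ι ∧ Nontrivial H ∧
    ∃ (Q : Type) (_ : Group Q), VPC Q ∧ ∃ G : Fib Q H, G.Comm ∧ G.Top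

end Pool.Agent.Helper39.Uct
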