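import Pool.Agent.Helper39.Uct.Count

/-! The four permanence properties as separate definitions (same content as `UctLike`). -/

open scoped ComplexOrder

namespace Pool.Agent.Helper39.Uct

/-- A class of C*-algebras. -/
abbrev Cls : Type 1 := ∀ (A : Type) [NonUnitalCStarAlgebra A], Prop

/-- The class contains every separable C*-algebra that is topologically graded by a virtually
polycyclic group with commutative unit fibre. -/
def GradedIn (𝒞 : Cls) : Prop :=
  ∀ (A : Type) [NonUnitalCStarAlgebra A] [TopologicalSpace.SeparableSpace A]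
    (Q : Type) [Group Q], VPC Q → ∀ G : Fib Q A, G.Comm → G.Top → 𝒞 A

/-- The class is closed under separable extensions. -/
def ExtIn (𝒞 : Cls) : Prop :=
  ∀ (I A A' : Type) [NonUnitalCStarAlgebra I] [NonUnitalCStarAlgebra A]
    [NonUnitalCStarAlgebra A'] [TopologicalSpace.SeparableSpace A]
    (ι : I →⋆ₙₐ[ℂ] A) (π : A →⋆ₙₐ[ℂ] A'), Function.Injective ι → Function.Surjective π →
    (∀ a : A, π a = 0 ↔ a ∈ Set.range ι) → 𝒞 I → 𝒞 A' → 𝒞 A

/-- The class is closed under closures of increasing unions. -/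
def UnionIn (𝒞 : Cls) : Prop :=
  ∀ (A : Type) [NonUnitalCStarAlgebra A] [TopologicalSpace.SeparableSpace A]
    (D : ℕ → Type) [∀ n, NonUnitalCStarAlgebra (D n)] (ι : ∀ n, D n →⋆ₙₐ[ℂ] A),
    (∀ n, Function.Injective (ι n)) → (∀ n, Set.range (ι n) ⊆ Set.range (ι (n + 1))) →
    Dense (⋃ n, Set.range (ι n)) → (∀ n, 𝒞 (D n)) → 𝒞 A

/-- If a full hereditary subalgebra of a separable C*-algebra is in the class, so is the
C*-algebra. -/
def HeredIn (𝒞 : Cls) : Prop :=
  ∀ (H A : Type) [NonUnitalCStarAlgebra H] [NonUnitalCStarAlgebra A]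
    [TopologicalSpace.SeparableSpace A] (ι : H →⋆ₙₐ[ℂ] A), Hered ι → Full ι → 𝒞 H → 𝒞 A

/-- The four permanence properties. -/
structure UctPerm (𝒞 : Cls) : Prop where
  graded : GradedIn 𝒞
  ext : ExtIn 𝒞
  union : UnionIn 𝒞
  hered : HeredIn 𝒞

theorem UctPerm.toUctLike {𝒞 : Cls} (h : UctPerm 𝒞) : UctLike 𝒞 :=
  ⟨h.graded, h.ext, h.union, h.hered⟩

end Pool.Agent.Helper39.Uct
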