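import Pool.Agent.Helper39.Uct.Defs

open scoped ComplexOrder

namespace Pool.Agent.Helper39.Uct

open Fib

/-! ## Pure C*-algebra packets -/

/-- NL: a noncommutative C*-algebra has a nonzero element of square zero. -/
def S_NL : Prop := ∀ (A : Type) [NonUnitalCStarAlgebra A],
  (∃ x y : A, x * y ≠ y * x) → ∃ z : A, z ≠ 0 ∧ z * z = 0

/-- The standard identity of degree `m` (computed in the unitization). -/
def StdId (m : ℕ) (D : Type) [NonUnitalCStarAlgebra D] : Prop :=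
  ∀ y : Fin m → D, ∑ σ : Equiv.Perm (Fin m), ((Equiv.Perm.sign σ : ℤˣ) : ℤ) •
    (List.ofFn (fun i => ((y (σ i) : D) : Unitization ℂ D))).prod = 0

/-- `D` has a nonzero abelian self-adjoint element. -/
def HasAb (D : Type) [NonUnitalCStarAlgebra D] : Prop :=
  ∃ e : D, IsSelfAdjoint e ∧ e ≠ 0 ∧
    ∀ x y : D, (e * x * e) * (e * y * e) = (e * y * e) * (e * x * e)

/-- AE: a nonzero C*-algebra with a standard identity has a nonzero abelian element. -/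
def S_AE : Prop := ∀ (D : Type) [NonUnitalCStarAlgebra D] (m : ℕ), Nontrivial D →
  StdId m D → HasAb D

/-- QT: quotients of C*-algebras by closed ideals are C*-algebras. -/
def S_QT : Prop := ∀ (B : Type) [NonUnitalCStarAlgebra B] (I : Submodule ℂ B),
  IsClosed (I : Set B) → (∀ x ∈ I, ∀ b, b * x ∈ I ∧ x * b ∈ I) → (∀ x ∈ I, star x ∈ I) →
  ∃ (B' : Type) (_ : NonUnitalCStarAlgebra B') (π : B →⋆ₙₐ[ℂ] B'),
    Function.Surjective π ∧ ∀ b, π b = 0 ↔ b ∈ I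

/-- RC: the range of a *-homomorphism is closed. -/
def S_RC : Prop := ∀ (A B : Type) [NonUnitalCStarAlgebra A] [NonUnitalCStarAlgebra B]
  (f : A →⋆ₙₐ[ℂ] B), IsClosed (Set.range f)

/-- HT: hereditary embeddings compose. -/
def S_HT : Prop := ∀ (H₁ H₂ B : Type) [NonUnitalCStarAlgebra H₁] [NonUnitalCStarAlgebra H₂]
  [NonUnitalCStarAlgebra B] (i : H₁ →⋆ₙₐ[ℂ] H₂) (j : H₂ →⋆ₙₐ[ℂ] B),
  Hered i → Hered j → Hered (j.comp i)

/-! ## Group packets -/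

/-- Passing to subgroups, quotients and isomorphic groups. -/
def S_GV : Prop :=
  (∀ (Q : Type) [Group Q], VPC Q → ∀ M : Subgroup Q, VPC M) ∧
  (∀ (Q : Type) [Group Q], VPC Q → ∀ (K : Subgroup Q) [K.Normal], VPC (Q ⧸ K)) ∧
  (∀ (Q Q' : Type) [Group Q] [Group Q'], (Q ≃* Q') → VPC Q → VPC Q')

/-- ACC on subgroups. -/
def S_ACC : Prop := ∀ (Q : Type) [Group Q], VPC Q → WellFoundedGT (Subgroup Q)

/-- Noetherian induction over sections. -/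
def S_GI : Prop := ∀ (P : ∀ (Q : Type) [Group Q], Prop),
  (∀ (Q Q' : Type) [Group Q] [Group Q'], (Q ≃* Q') → P Q → P Q') →
  (∀ (Q : Type) [Group Q], VPC Q →
    (∀ (M : Subgroup Q) (K : Subgroup M) [K.Normal], K ≠ ⊥ → P (M ⧸ K)) → P Q) →
  ∀ (Q : Type) [Group Q], VPC Q → P Q

/-- A nontrivial subgroup `D` contains a nontrivial subgroup, invariant under the normaliser
of `D`, that is finite or torsion-free abelian. -/
def S_GL : Prop := ∀ (Q : Type) [Group Q], VPC Q → ∀ D : Subgroup Q, D ≠ ⊥ →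
  ∃ K : Subgroup Q, K ≤ D ∧ K ≠ ⊥ ∧
    (∀ q : Q, (∀ x, x ∈ D ↔ q * x * q⁻¹ ∈ D) → ∀ x, x ∈ K ↔ q * x * q⁻¹ ∈ K) ∧
    (Finite K ∨ ((∀ x ∈ K, ∀ y ∈ K, x * y = y * x) ∧
      ∀ x ∈ K, ∀ n : ℕ, n ≠ 0 → x ^ n = 1 → x = 1))

/-! ## Points -/

section points

variable {Q : Type} [Group Q] {B : Type} [NonUnitalCStarAlgebra B] (G : Fib Q B)

/-- The pointwise facts. -/
structure PF (G : Fib Q B) : Prop where
  herm : ∀ (φ : G.Pt) (b : B), φ (star b) = star (φ b)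
  cs : ∀ (φ : G.Pt) (a b : B),
    ‖φ (star a * b)‖ ^ 2 ≤ (φ (star a * a)).re * (φ (star b * b)).re
  mulL : ∀ (φ : G.Pt), ∀ c ∈ G.fib 1, ∀ b : B, φ (c * b) = φ c * φ b
  mulR : ∀ (φ : G.Pt), ∀ c ∈ G.fib 1, ∀ b : B, φ (b * c) = φ b * φ c
  oned : ∀ (φ : G.Pt) (q : Q), ∀ b ∈ G.fib q, ∀ b' ∈ G.fib q,
    φ (star b * b') * φ (star b' * b) = φ (star b * b) * φ (star b' * b')
  move : ∀ (φ : G.Pt) (q : Q), ∀ b ∈ G.fib q, φ (star b * b) ≠ 0 →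
    ∃ ψ : G.Pt, ∀ y, ψ y * φ (star b * b) = φ (star b * y * b)
  st_one : ∀ φ : G.Pt, (1 : Q) ∈ G.St φ
  st_mul : ∀ (φ : G.Pt) (q q' : Q), q ∈ G.St φ → q' ∈ G.St φ → q * q' ∈ G.St φ
  st_inv : ∀ (φ : G.Pt) (q : Q), q ∈ G.St φ → q⁻¹ ∈ G.St φ
  cm_symm : ∀ (φ : G.Pt) (q a : Q), G.Cm φ q a → G.Cm φ a q
  cm_one : ∀ (φ : G.Pt) (a : Q), a ∈ G.St φ → G.Cm φ 1 a
  cm_mul : ∀ (φ : G.Pt) (q q' a : Q), q ∈ G.St φ → q' ∈ G.St φ → a ∈ G.St φ →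
    G.Cm φ q a → G.Cm φ q' a → G.Cm φ (q * q') a
  cm_inv : ∀ (φ : G.Pt) (q a : Q), q ∈ G.St φ → a ∈ G.St φ → G.Cm φ q a → G.Cm φ q⁻¹ a
  st_conj : ∀ (φ ψ : G.Pt) (q : Q), ∀ b ∈ G.fib q, φ (star b * b) ≠ 0 →
    (∀ y, ψ y * φ (star b * b) = φ (star b * y * b)) →
    ∀ n, n ∈ G.St φ → q * n * q⁻¹ ∈ G.St ψ
  cm_conj : ∀ (φ ψ : G.Pt) (q : Q), ∀ b ∈ G.fib q, φ (star b * b) ≠ 0 →
    (∀ y, ψ y * φ (star b * b) = φ (star b * y * b)) →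
    ∀ n a, n ∈ G.St φ → a ∈ G.St φ → G.Cm φ n a → G.Cm ψ (q * n * q⁻¹) (q * a * q⁻¹)

end points

/-- The pointwise facts hold. -/
def S_PF : Prop := ∀ (Q : Type) [Group Q] (B : Type) [NonUnitalCStarAlgebra B]
  (G : Fib Q B), G.Comm → PF G

/-- PE: points exist. -/
def S_PE : Prop := ∀ (Q : Type) [Group Q] (B : Type) [NonUnitalCStarAlgebra B]
  (G : Fib Q B), G.Comm → ∀ c ∈ G.fib 1, c ≠ 0 → ∃ φ : G.Pt, ‖φ c‖ = ‖c‖

/-! ## The local analysis -/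

section alt

variable {Q : Type} [Group Q] {B : Type} [NonUnitalCStarAlgebra B] (G : Fib Q B)

/-- The corner cut by `d` is topologically graded. -/
def CutTop (d : B) : Prop :=
  ∀ (s : Finset Q) (b : Q → B), (∀ q ∈ s, b q ∈ closure {x | ∃ y ∈ G.fib q, x = d * y * d}) →
    1 ∈ s → ‖b 1‖ ≤ ‖∑ q ∈ s, b q‖

/-- `L` is abelian and torsion-free. -/
def TfAb (L : Subgroup Q) : Prop :=
  (∀ x ∈ L, ∀ y ∈ L, x * y = y * x) ∧ ∀ x ∈ L, ∀ n : ℕ, n ≠ 0 → x ^ n = 1 → x = 1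

/-- `L` fixes all points where `d` does not vanish, and is normalised by `M0 d`. -/
def Fix (d : B) (L : Subgroup Q) : Prop :=
  (∀ l ∈ L, ∀ φ : G.Pt, φ d ≠ 0 → l ∈ G.St φ) ∧ ∀ q ∈ G.M0 d, ∀ l ∈ L, q * l * q⁻¹ ∈ L

def AltT : Prop := ∃ d ∈ G.fib 1, IsSelfAdjoint d ∧ d ≠ 0 ∧ CutTop G d

def AltF : Prop := ∃ d ∈ G.fib 1, IsSelfAdjoint d ∧ d ≠ 0 ∧
  ∃ K : Subgroup Q, K ≠ ⊥ ∧ Finite K ∧ Fix G d K

def AltA : Prop := ∃ d ∈ G.fib 1, IsSelfAdjoint d ∧ d ≠ 0 ∧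
  ∃ K : Subgroup Q, K ≠ ⊥ ∧ Fix G d K ∧ ∀ k ∈ K, ∀ k' ∈ K, ∀ φ : G.Pt, φ d ≠ 0 → G.Cm φ k k'

/-- The data needed to pass to a section of `Q`. -/
def Reg : Prop := ∃ (e : B) (M K : Subgroup Q), K ≤ M ∧ K ≠ ⊥ ∧
  (∀ q ∈ M, ∀ k ∈ K, q * k * q⁻¹ ∈ K) ∧ IsSelfAdjoint e ∧ e ≠ 0 ∧
  (∀ q, q ∉ M → ∀ b ∈ G.fib q, e * b * e = 0) ∧
  e ∈ (⨆ k : K, G.fib (k : Q)).topologicalClosure ∧
  ∀ k ∈ K, ∀ k' ∈ K, ∀ b ∈ G.fib k, ∀ b' ∈ G.fib k',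
    (e * b * e) * (e * b' * e) = (e * b' * e) * (e * b * e)

end alt

/-- L2: the averaging lemma. -/
def S_L2 : Prop := ∀ (Q : Type) [Group Q] (B : Type) [NonUnitalCStarAlgebra B]
  (G : Fib Q B), G.Comm → ∀ (d : B) (L : Subgroup Q), d ∈ G.fib 1 → IsSelfAdjoint d →
  L.FG → TfAb L → Fix G d L →
  (∀ q : Q, q ≠ 1 → ∀ d' ∈ G.fib 1, d * d' ≠ 0 → ∃ φ : G.Pt, φ (d * d') ≠ 0 ∧ q ∉ G.DD φ L) →
  CutTop G d

/-- SEL: the selection argument. -/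
def S_SEL : Prop := ∀ (Q : Type) [Group Q] (B : Type) [NonUnitalCStarAlgebra B]
  (G : Fib Q B), VPC Q → G.Comm → Nontrivial B → AltT G ∨ AltF G ∨ AltA G

/-- FP: the finite case. -/
def S_FP : Prop := ∀ (Q : Type) [Group Q] (B : Type) [NonUnitalCStarAlgebra B]
  (G : Fib Q B), G.Comm → AltF G → Reg G

/-- AP: the abelian case. -/
def S_AP : Prop := ∀ (Q : Type) [Group Q] (B : Type) [NonUnitalCStarAlgebra B]
  (G : Fib Q B), G.Comm → AltA G → Reg G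

/-- RG: regrading of corners. -/
def S_RG : Prop := ∀ (Q : Type) [Group Q] (B : Type) [NonUnitalCStarAlgebra B]
  (G : Fib Q B) (M : Subgroup Q) (Q' : Type) [Group Q'] (f : M →* Q') (e : B),
  IsSelfAdjoint e → e ≠ 0 → (∀ q, q ∉ M → ∀ b ∈ G.fib q, e * b * e = 0) →
  e ∈ (⨆ k : f.ker, G.fib ((k : M) : Q)).topologicalClosure →
  ∃ (H : Type) (_ : NonUnitalCStarAlgebra H) (ι : H →⋆ₙₐ[ℂ] B), Hered ι ∧ Nontrivial H ∧
    Set.range ι = closure {x | ∃ y, x = e * y * e} ∧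
    ∃ G' : Fib Q' H, ∀ (t : Q') (h : H), h ∈ G'.fib t ↔
      ι h ∈ closure (Submodule.span ℂ
        {x | ∃ q : M, f q = t ∧ ∃ b ∈ G.fib (q : Q), x = e * b * e} : Set B)

/-- ST: one step. -/
def S_ST : Prop := ∀ (Q : Type) [Group Q], VPC Q →
  (∀ (M : Subgroup Q) (K : Subgroup M) [K.Normal], K ≠ ⊥ →
    ∀ (B : Type) [NonUnitalCStarAlgebra B] (G : Fib (M ⧸ K) B), G.Comm → Nontrivial B →
      Good B) →
  ∀ (B : Type) [NonUnitalCStarAlgebra B] (G : Fib Q B), G.Comm → Nontrivial B → Good B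

/-- MT: the structure theorem. -/
def S_MT : Prop := ∀ (Q : Type) [Group Q], VPC Q →
  ∀ (B : Type) [NonUnitalCStarAlgebra B] (G : Fib Q B), G.Comm → Nontrivial B → Good B

/-- TV: type I unit fibre, virtually polycyclic group. -/
def S_TV : Prop := ∀ (𝒞 : ∀ (A : Type) [NonUnitalCStarAlgebra A], Prop), UctLike 𝒞 →
  ∀ (B : Type) [NonUnitalCStarAlgebra B] [TopologicalSpace.SeparableSpace B]
  (Q : Type) [Group Q], VPC Q → ∀ (G : Fib Q B) (A : Type) [NonUnitalCStarAlgebra A],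
  IsTypeI A → ∀ ι : A →⋆ₙₐ[ℂ] B, Set.range ι = (G.fib 1 : Set B) → 𝒞 B

/-- TLV: type I unit fibre, locally virtually polycyclic group. -/
def S_TLV : Prop := ∀ (𝒞 : ∀ (A : Type) [NonUnitalCStarAlgebra A], Prop), UctLike 𝒞 →
  ∀ (B : Type) [NonUnitalCStarAlgebra B] [TopologicalSpace.SeparableSpace B]
  (Q : Type) [Group Q] [Countable Q], (∀ H : Subgroup Q, H.FG → VPC H) →
  ∀ (G : Fib Q B) (A : Type) [NonUnitalCStarAlgebra A],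
  IsTypeI A → ∀ ι : A →⋆ₙₐ[ℂ] B, Set.range ι = (G.fib 1 : Set B) → 𝒞 B

/-- GR: group version. -/
def S_GR : Prop := ∀ (𝒞 : ∀ (A : Type) [NonUnitalCStarAlgebra A], Prop), UctLike 𝒞 →
  ∀ (Γ : Type) [Group Γ] [Countable Γ] (N : Subgroup Γ) [N.Normal],
  (∀ a ∈ N, ∀ b ∈ N, a * b = b * a) → (∀ H : Subgroup (Γ ⧸ N), H.FG → VPC H) →
  ∀ (B : Type) [CStarAlgebra B] (u : Γ →* unitary B),
  (Submodule.span ℂ (Set.range fun g => ((u g : unitary B) : B))).topologicalClosure = ⊤ → 𝒞 B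

end Pool.Agent.Helper39.Uct
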