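import Pool.Agent.Helper39.Uct.Goals

open scoped ComplexOrder

namespace Pool.Agent.Helper39.Uct

open Fib

/-- The first six pointwise facts. -/
structure PF1 {Q : Type} [Group Q] {B : Type} [NonUnitalCStarAlgebra B] (G : Fib Q B) :
    Prop where
  herm : ∀ (φ : G.Pt) (b : B), φ (star b) = star (φ b)
  cs : ∀ (φ : G.Pt) (a b : B),
    ‖φ (star a * b)‖ ^ 2 ≤ (φ (star a * a)).re * (φ (star b * b)).re
  mulL : ∀ (φ : G.Pt), ∀ c ∈ G.fib 1, ∀ b : B, φ (c * b) = φ c * φ b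
  mulR : ∀ (φ : G.Pt), ∀ c ∈ G.fib 1, ∀ b : B, φ (b * c) = φ b * φ c
  oned : ∀ (φ : G.Pt) (q : Q), ∀ b ∈ G.fib q, ∀ b' ∈ G.fib q,
    φ (star b * b') * φ (star b' * b) = φ (star b * b) * φ (star b' * b')
  move : ∀ (φ : G.Pt) (q : Q), ∀ b ∈ G.fib q, φ (star b * b) ≠ 0 →
    ∃ ψ : G.Pt, ∀ y, ψ y * φ (star b * b) = φ (star b * y * b)
  /-- `φ (star y * y) = 0` is preserved by left multiplication. -/
  left : ∀ (φ : G.Pt) (a y : B), φ (star y * y) = 0 → φ (star (a * y) * (a * y)) = 0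

/-- PF1 (done by helper39). -/
def S_PF1 : Prop := ∀ (Q : Type) [Group Q] (B : Type) [NonUnitalCStarAlgebra B]
  (G : Fib Q B), G.Comm → PF1 G

/-- `ψ` is invariant under `L`. -/
def InvL {Q : Type} [Group Q] {B : Type} [NonUnitalCStarAlgebra B] (G : Fib Q B)
    (L : Subgroup Q) (ψ : G.Pt) : Prop :=
  ∀ l ∈ L, ∀ a ∈ G.fib l, ψ (star a * a) = 1 → ∀ y, ψ (star a * y * a) = ψ y

/-- INV: invariant points exist (L2, part (c)). -/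
def S_INV : Prop := ∀ (Q : Type) [Group Q] (B : Type) [NonUnitalCStarAlgebra B]
  (G : Fib Q B), G.Comm → ∀ (L : Subgroup Q), L.FG → (∀ x ∈ L, ∀ y ∈ L, x * y = y * x) →
  ∀ φ : G.Pt, (∀ l ∈ L, l ∈ G.St φ) → ∃ ψ : G.Pt, (∀ c ∈ G.fib 1, ψ c = φ c) ∧ InvL G L ψ

/-- GEN: generic points (L2, parts (a), (b)). -/
def S_GEN : Prop := ∀ (Q : Type) [Group Q] (B : Type) [NonUnitalCStarAlgebra B]
  (G : Fib Q B), G.Comm → ∀ (d : B) (L : Subgroup Q), d ∈ G.fib 1 → IsSelfAdjoint d →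
  (∀ q : Q, q ≠ 1 → ∀ d' ∈ G.fib 1, d * d' ≠ 0 → ∃ φ : G.Pt, φ (d * d') ≠ 0 ∧ q ∉ G.DD φ L) →
  ∀ c ∈ closure {x | ∃ y ∈ G.fib 1, x = d * y * d}, c ≠ 0 → ∀ ε : ℝ, 0 < ε →
  ∀ F : Finset Q, 1 ∉ F →
    ∃ φ : G.Pt, ‖c‖ - ε ≤ ‖φ c‖ ∧ φ d ≠ 0 ∧ ∀ q ∈ F, q ∉ G.DD φ L

/-- VAN: vanishing of invariant points (L2, part (d)). -/
def S_VAN : Prop := ∀ (Q : Type) [Group Q] (B : Type) [NonUnitalCStarAlgebra B]
  (G : Fib Q B), G.Comm → ∀ (L : Subgroup Q), (∀ x ∈ L, ∀ y ∈ L, x * y = y * x) →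
  ∀ ψ : G.Pt, (∀ l ∈ L, l ∈ G.St ψ) → InvL G L ψ → ∀ q, q ∉ G.DD ψ L →
  (q ∉ G.St ψ ∨ ∀ l ∈ L, q * l = l * q) → ∀ x ∈ G.fib q, ψ x = 0

/-- BES: the Bessel estimate (L2, part (e)). -/
def S_BES : Prop := ∀ (Q : Type) [Group Q] (B : Type) [NonUnitalCStarAlgebra B]
  (G : Fib Q B), G.Comm → ∀ (L : Subgroup Q), TfAb L →
  ∀ ψ : G.Pt, (∀ l ∈ L, l ∈ G.St ψ) → InvL G L ψ → ∀ q ∈ G.St ψ,
  (∀ l ∈ L, q * l * q⁻¹ ∈ L) → ∀ l₀ ∈ L, ∀ n : ℕ,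
  (∀ j : ℤ, j ≠ 0 → |j| ≤ (n : ℤ) → (l₀⁻¹ * (q * l₀ * q⁻¹)) ^ j ∉ G.DD ψ L) →
  ∀ x ∈ G.fib q, (n : ℝ) * ‖ψ x‖ ^ 2 ≤ ‖x‖ ^ 2

/-- NRM: the normalisation lemma. -/
def S_NRM : Prop := ∀ (Q : Type) [Group Q] (B : Type) [NonUnitalCStarAlgebra B]
  (G : Fib Q B), G.Comm → ∀ (d : B) (A : Subgroup Q), d ∈ G.fib 1 → IsSelfAdjoint d →
  Fix G d A → ∀ q ∈ G.M0 d, ∃ d' ∈ G.fib 1, IsSelfAdjoint d' ∧ d * d' ≠ 0 ∧
    ∀ ψ : G.Pt, ψ (d * d') ≠ 0 → ∃ φ : G.Pt, φ d ≠ 0 ∧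
      ∀ n, n ∈ G.DD φ A → q * n * q⁻¹ ∈ G.DD ψ A

/-- `ι` embeds `J` as a closed two-sided ideal of `B`. -/
def IdealEmb {J B : Type} [NonUnitalCStarAlgebra J] [NonUnitalCStarAlgebra B]
    (ι : J →⋆ₙₐ[ℂ] B) : Prop :=
  Function.Injective ι ∧ ∀ (x : J) (a : B), a * ι x ∈ Set.range ι ∧ ι x * a ∈ Set.range ι

/-- ZORN: transfinite composition series. -/
def S_ZORN : Prop := ∀ (𝒞 PP : ∀ (A : Type) [NonUnitalCStarAlgebra A], Prop), UctLike 𝒞 →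
  (∀ (A A' : Type) [NonUnitalCStarAlgebra A] [NonUnitalCStarAlgebra A'] (π : A →⋆ₙₐ[ℂ] A'),
    Function.Surjective π → PP A → PP A') →
  (∀ (A : Type) [NonUnitalCStarAlgebra A] [TopologicalSpace.SeparableSpace A], PP A →
    Nontrivial A → ∃ (J : Type) (_ : NonUnitalCStarAlgebra J) (ι : J →⋆ₙₐ[ℂ] A),
      IdealEmb ι ∧ Nontrivial J ∧ 𝒞 J) →
  ∀ (A : Type) [NonUnitalCStarAlgebra A] [TopologicalSpace.SeparableSpace A], PP A → 𝒞 A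

/-- A C*-algebra weakly graded by a virtually polycyclic group, whose unit fibre is a quotient
of a type I algebra. -/
def WG (B : Type) [NonUnitalCStarAlgebra B] : Prop :=
  ∃ (Q : Type) (_ : Group Q), VPC Q ∧ ∃ (G : Fib Q B) (A : Type)
    (_ : NonUnitalCStarAlgebra A), IsTypeI A ∧ ∃ ι : A →⋆ₙₐ[ℂ] B,
      Set.range ι = (G.fib 1 : Set B)

/-- TQ: quotients of weakly graded algebras. -/
def S_TQ : Prop := ∀ (A A' : Type) [NonUnitalCStarAlgebra A] [NonUnitalCStarAlgebra A']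
  (π : A →⋆ₙₐ[ℂ] A'), Function.Surjective π → WG A → WG A'

/-- TI: nonzero weakly graded algebras have nonzero ideals in the class. -/
def S_TI : Prop := ∀ (𝒞 : ∀ (A : Type) [NonUnitalCStarAlgebra A], Prop), UctLike 𝒞 →
  ∀ (A : Type) [NonUnitalCStarAlgebra A] [TopologicalSpace.SeparableSpace A], WG A →
    Nontrivial A → ∃ (J : Type) (_ : NonUnitalCStarAlgebra J) (ι : J →⋆ₙₐ[ℂ] A),
      IdealEmb ι ∧ Nontrivial J ∧ 𝒞 J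

end Pool.Agent.Helper39.Uct
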