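import Pool.Agent.Helper39.Uct.Final

/-!
# The Rosenberg-Schochet bootstrap class

Statements for the second theorem: weakly graded C*-algebras over groups all of whose infinite
sections map onto `ℤ`, with type I unit fibre, belong to every class that contains the
separable type I algebras and is closed under extensions, unions, Morita equivalence (full
hereditary subalgebras) and crossed products by `ℤ`.
-/

open scoped ComplexOrder

namespace Pool.Agent.Helper39.Uct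

open Fib

/-! ## Definitions -/

/-- Virtually polycyclic groups all of whose infinite sections map onto `ℤ` (for example all
finitely generated nilpotent groups). -/
def PZ (Q : Type) [Group Q] : Prop :=
  VPC Q ∧ ∀ (M : Subgroup Q) (K : Subgroup M) [K.Normal],
    Finite (M ⧸ K) ∨ ∃ f : (M ⧸ K) →* Multiplicative ℤ, Function.Surjective f

/-- `E` is the crossed product of `A` by the action `α` of `ℤ`; `j n a` stands for `a u ^ n`.
The norm condition says that the projection to the coefficient of `u ^ 0` is contractive; as `ℤ`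
is amenable, it characterises the crossed product. -/
structure IsCrossZ {A E : Type} [NonUnitalCStarAlgebra A] [NonUnitalCStarAlgebra E]
    (α : ℤ → A →⋆ₙₐ[ℂ] A) (j : ℤ → A →ₗ[ℂ] E) : Prop where
  zero : ∀ a, α 0 a = a
  add : ∀ m n a, α (m + n) a = α m (α n a)
  mul : ∀ m n a b, j m a * j n b = j (m + n) (a * α m b)
  star : ∀ m a, star (j m a) = j (-m) (α (-m) (star a))
  dense : (⨆ n, LinearMap.range (j n)).topologicalClosure = ⊤
  norm : ∀ (s : Finset ℤ) (a : ℤ → A), 0 ∈ s → ‖a 0‖ ≤ ‖∑ n ∈ s, j n (a n)‖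

/-- The class contains all separable type I algebras. -/
def TypeIIn (𝒞 : Cls) : Prop :=
  ∀ (A : Type) [NonUnitalCStarAlgebra A] [TopologicalSpace.SeparableSpace A], IsTypeI A → 𝒞 A

/-- The class is closed under crossed products by `ℤ`. -/
def CrossZIn (𝒞 : Cls) : Prop :=
  ∀ (A E : Type) [NonUnitalCStarAlgebra A] [NonUnitalCStarAlgebra E]
    [TopologicalSpace.SeparableSpace E] (α : ℤ → A →⋆ₙₐ[ℂ] A) (j : ℤ → A →ₗ[ℂ] E),
    IsCrossZ α j → 𝒞 A → 𝒞 E

/-- A separable algebra is in the class if and only if its full hereditary subalgebras are. -/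
def HeredIff (𝒞 : Cls) : Prop :=
  ∀ (H A : Type) [NonUnitalCStarAlgebra H] [NonUnitalCStarAlgebra A]
    [TopologicalSpace.SeparableSpace A] (ι : H →⋆ₙₐ[ℂ] A), Hered ι → Full ι → (𝒞 H ↔ 𝒞 A)

/-- The permanence properties of the original bootstrap class of Rosenberg and Schochet. -/
structure RSClass (𝒞 : Cls) : Prop where
  typeI : TypeIIn 𝒞
  ext : ExtIn 𝒞
  union : UnionIn 𝒞
  hered : HeredIff 𝒞
  crossZ : CrossZIn 𝒞

/-! ## Packets on classes -/

/-- ZORN2: as `S_ZORN`, with the hypotheses actually used. -/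
def S_ZORN2 : Prop := ∀ (𝒞 PP : Cls),
  (∀ (A : Type) [NonUnitalCStarAlgebra A], Subsingleton A → 𝒞 A) → ExtIn 𝒞 → UnionIn 𝒞 →
  (∀ (A A' : Type) [NonUnitalCStarAlgebra A] [NonUnitalCStarAlgebra A'] (π : A →⋆ₙₐ[ℂ] A'),
    Function.Surjective π → PP A → PP A') →
  (∀ (A : Type) [NonUnitalCStarAlgebra A] [TopologicalSpace.SeparableSpace A], PP A →
    Nontrivial A → ∃ (J : Type) (_ : NonUnitalCStarAlgebra J) (ι : J →⋆ₙₐ[ℂ] A),
      IdealEmb ι ∧ Nontrivial J ∧ 𝒞 J) →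
  ∀ (A : Type) [NonUnitalCStarAlgebra A] [TopologicalSpace.SeparableSpace A], PP A → 𝒞 A

/-- IDL: the closed ideal generated by a nonzero hereditary subalgebra of the class is in the
class. -/
def S_IDL : Prop := ∀ (𝒞 : Cls), HeredIn 𝒞 →
  ∀ (H B : Type) [NonUnitalCStarAlgebra H] [NonUnitalCStarAlgebra B]
    [TopologicalSpace.SeparableSpace B] (ι : H →⋆ₙₐ[ℂ] B), Hered ι → Nontrivial H → 𝒞 H →
    ∃ (J : Type) (_ : NonUnitalCStarAlgebra J) (j : J →⋆ₙₐ[ℂ] B),
      IdealEmb j ∧ Nontrivial J ∧ 𝒞 J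

/-- Weakly graded by `Q`, the unit fibre being a quotient of a type I algebra. -/
def WGQ (Q : Type) [Group Q] (B : Type) [NonUnitalCStarAlgebra B] : Prop :=
  ∃ (G : Fib Q B) (A : Type) (_ : NonUnitalCStarAlgebra A), IsTypeI A ∧ ∃ ι : A →⋆ₙₐ[ℂ] B,
    Set.range ι = (G.fib 1 : Set B)

/-- TQ2: quotients of algebras weakly graded by `Q`. -/
def S_TQ2 : Prop := ∀ (Q : Type) [Group Q] (A A' : Type) [NonUnitalCStarAlgebra A]
  [NonUnitalCStarAlgebra A'] (π : A →⋆ₙₐ[ℂ] A'), Function.Surjective π → WGQ Q A → WGQ Q A'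

/-- CI: commutative unit fibres are type I. -/
def S_CI : Prop := ∀ (Q : Type) [Group Q] (B : Type) [NonUnitalCStarAlgebra B] (G : Fib Q B),
  G.Comm → WGQ Q B

/-- RED: one step of the structure theorem. -/
def S_RED : Prop := ∀ (Q : Type) [Group Q], VPC Q → ∀ (B : Type) [NonUnitalCStarAlgebra B]
  (G : Fib Q B), G.Comm → Nontrivial B →
  ∃ (H : Type) (_ : NonUnitalCStarAlgebra H) (ι : H →⋆ₙₐ[ℂ] B), Hered ι ∧ Nontrivial H ∧
    ((∃ G' : Fib Q H, G'.Comm ∧ G'.Top) ∨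
      ∃ (M : Subgroup Q) (K : Subgroup M) (_ : K.Normal), K ≠ ⊥ ∧
        ∃ G' : Fib (M ⧸ K) H, G'.Comm)

/-- TC: reduction to commutative unit fibre. -/
def S_TC : Prop := ∀ (Q : Type) [Group Q] (A : Type) [NonUnitalCStarAlgebra A], WGQ Q A →
  Nontrivial A → ∃ (H : Type) (_ : NonUnitalCStarAlgebra H) (ι : H →⋆ₙₐ[ℂ] A),
    Hered ι ∧ Nontrivial H ∧ ∃ G : Fib Q H, G.Comm

/-! ## Packets on groups -/

/-- HL: a Hirsch length. -/
def S_HL : Prop := ∀ (Q : Type) [Group Q], VPC Q → ∃ h : Subgroup Q → ℕ,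
  ∀ (M S : Subgroup Q), S ≤ M → ∀ f : M →* Multiplicative ℤ, Function.Surjective f →
    (∀ m : M, f m = 1 ↔ (m : Q) ∈ S) → h S < h M

/-- PZI: the induction principle. -/
def S_PZI : Prop := ∀ (P : ∀ (Q : Type) [Group Q], Prop),
  (∀ (Q Q' : Type) [Group Q] [Group Q'], (Q ≃* Q') → P Q → P Q') →
  (∀ (Q : Type) [Group Q], PZ Q →
    (∀ (M : Subgroup Q) (K : Subgroup M) [K.Normal], K ≠ ⊥ → P (M ⧸ K)) →
    (∀ f : Q →* Multiplicative ℤ, Function.Surjective f → P f.ker) → P Q) →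
  ∀ (Q : Type) [Group Q], PZ Q → P Q

/-- NP: finitely generated nilpotent groups. -/
def S_NP : Prop := ∀ (Q : Type) [Group Q], Group.IsNilpotent Q → Group.FG Q → PZ Q

/-! ## Topological gradings: the conditional expectation and the gauge action -/

section faith

variable {Q : Type} [Group Q] {B : Type} [NonUnitalCStarAlgebra B]

/-- `E` is the projection to the unit fibre. -/
def IsE (G : Fib Q B) (E : B →L[ℂ] B) : Prop :=
  (∀ b ∈ G.fib 1, E b = b) ∧ (∀ q, q ≠ 1 → ∀ b ∈ G.fib q, E b = 0) ∧ ∀ b, ‖E b‖ ≤ ‖b‖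

/-- The projection to the unit fibre is faithful. -/
def Faith (G : Fib Q B) : Prop :=
  ∀ E : B →L[ℂ] B, IsE G E → ∀ b, E (star b * b) = 0 → b = 0

/-- The gauge automorphisms of the character `f` exist. -/
def Gauge (G : Fib Q B) (f : Q →* Multiplicative ℤ) : Prop :=
  ∀ z : Circle, ∃ γ : B →⋆ₙₐ[ℂ] B, Function.Bijective γ ∧
    ∀ q, ∀ b ∈ G.fib q, γ b = ((z : ℂ) ^ (Multiplicative.toAdd (f q))) • b

end faith

/-- EE: the projection to the unit fibre exists. -/
def S_EE : Prop := ∀ (Q : Type) [Group Q] (B : Type) [NonUnitalCStarAlgebra B]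
  (G : Fib Q B), G.Top → ∃ E : B →L[ℂ] B, IsE G E ∧ ∀ b, E b ∈ G.fib 1

/-- FEF: finite groups. -/
def S_FEF : Prop := ∀ (Q : Type) [Group Q] [Finite Q] (B : Type) [NonUnitalCStarAlgebra B]
  (G : Fib Q B), G.Top → Faith G

/-- FES: the step of the induction. -/
def S_FES : Prop := ∀ (Q : Type) [Group Q] (f : Q →* Multiplicative ℤ),
  (∀ (B : Type) [NonUnitalCStarAlgebra B] (G : Fib f.ker B), G.Top → Faith G) →
  ∀ (B : Type) [NonUnitalCStarAlgebra B] (G : Fib Q B), G.Top → Faith G ∧ Gauge G f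

/-- FE: topologically graded algebras over groups in `PZ`. -/
def S_FE : Prop := ∀ (Q : Type) [Group Q], PZ Q → ∀ (B : Type) [NonUnitalCStarAlgebra B]
  (G : Fib Q B), G.Top → Faith G ∧
    ∀ f : Q →* Multiplicative ℤ, Function.Surjective f → Gauge G f

/-- FINT: topologically graded by a finite group with commutative unit fibre. -/
def S_FINT : Prop := ∀ (Q : Type) [Group Q] [Finite Q] (B : Type) [NonUnitalCStarAlgebra B]
  (G : Fib Q B), G.Comm → G.Top → ∃ m, StdId m B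

/-- FIN: weakly graded by a finite group with commutative unit fibre. -/
def S_FIN : Prop := ∀ (Q : Type) [Group Q] [Finite Q] (B : Type) [NonUnitalCStarAlgebra B]
  (G : Fib Q B), G.Comm → Nontrivial B → HasAb B

/-- FINI: algebras weakly graded by a finite group with commutative unit fibre are type I. -/
def S_FINI : Prop := ∀ (Q : Type) [Group Q] [Finite Q] (B : Type) [NonUnitalCStarAlgebra B]
  (G : Fib Q B), G.Comm → IsTypeI B

/-! ## Infinite matrices -/

/-- GN: faithful representations exist. -/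
def S_GN : Prop := ∀ (B : Type) [NonUnitalCStarAlgebra B],
  ∃ (H : Type) (_ : NormedAddCommGroup H) (_ : InnerProductSpace ℂ H) (_ : CompleteSpace H)
    (π : B →⋆ₙₐ[ℂ] (H →L[ℂ] H)), Function.Injective π

/-- `E` is the algebra of compact `ℤ × ℤ` matrices over `B`. -/
structure MatSys {B E : Type} [NonUnitalCStarAlgebra B] [NonUnitalCStarAlgebra E]
    (e : ℤ → ℤ → B →ₗ[ℂ] E) : Prop where
  mul : ∀ i j k b c, e i j b * e j k c = e i k (b * c)
  mul0 : ∀ i j k l b c, j ≠ k → e i j b * e k l c = 0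
  star : ∀ i j b, star (e i j b) = e j i (star b)
  inj : ∀ i j b, e i j b = 0 → b = 0
  dense : (⨆ i, ⨆ j, LinearMap.range (e i j)).topologicalClosure = ⊤

/-- MS: existence. -/
def S_MS : Prop := ∀ (B : Type) [NonUnitalCStarAlgebra B] [TopologicalSpace.SeparableSpace B],
  ∃ (E : Type) (_ : NonUnitalCStarAlgebra E) (e : ℤ → ℤ → B →ₗ[ℂ] E),
    MatSys e ∧ TopologicalSpace.SeparableSpace E

/-- UQ: uniqueness. -/
def S_UQ : Prop := ∀ (B E E' : Type) [NonUnitalCStarAlgebra B] [NonUnitalCStarAlgebra E]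
  [NonUnitalCStarAlgebra E'] (e : ℤ → ℤ → B →ₗ[ℂ] E) (e' : ℤ → ℤ → B →ₗ[ℂ] E'),
  MatSys e → MatSys e' → ∃ Φ : E →⋆ₙₐ[ℂ] E', Function.Bijective Φ ∧
    ∀ i j b, Φ (e i j b) = e' i j b

/-- RN: right multiplication by the shift. -/
def S_RN : Prop := ∀ (B E : Type) [NonUnitalCStarAlgebra B] [NonUnitalCStarAlgebra E]
  (e : ℤ → ℤ → B →ₗ[ℂ] E), MatSys e → ∀ n : ℤ, ∃ R : E →ₗ[ℂ] E, (∀ x, ‖R x‖ = ‖x‖) ∧
    ∀ i j b, R (e i j b) = e i (j - n) b

/-- COR: the corner. -/
def S_COR : Prop := ∀ (B E : Type) [NonUnitalCStarAlgebra B] [NonUnitalCStarAlgebra E]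
  (e : ℤ → ℤ → B →ₗ[ℂ] E), MatSys e → ∃ κ : B →⋆ₙₐ[ℂ] E, (∀ b, κ b = e 0 0 b) ∧
    Hered κ ∧ Full κ

/-- The span of the homogeneous matrices of degree zero. -/
def ASpan {Q : Type} [Group Q] {B E : Type} [NonUnitalCStarAlgebra B]
    [NonUnitalCStarAlgebra E] (G : Fib Q B) (f : Q →* Multiplicative ℤ)
    (e : ℤ → ℤ → B →ₗ[ℂ] E) : Submodule ℂ E :=
  Submodule.span ℂ {x | ∃ (i j : ℤ) (q : Q), f q = Multiplicative.ofAdd (i - j) ∧
    ∃ b ∈ G.fib q, x = e i j b}

/-- MAT: the homogeneous matrices of degree zero form an algebra weakly graded by the kernel,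
with type I unit fibre. -/
def S_MAT : Prop := ∀ (Q : Type) [Group Q] (B E : Type) [NonUnitalCStarAlgebra B]
  [NonUnitalCStarAlgebra E] (G : Fib Q B) (f : Q →* Multiplicative ℤ), Function.Surjective f →
  G.Comm → ∀ e : ℤ → ℤ → B →ₗ[ℂ] E, MatSys e →
  ∃ (A : Type) (_ : NonUnitalCStarAlgebra A) (κ : A →⋆ₙₐ[ℂ] E), Function.Injective κ ∧
    Set.range κ = ((ASpan G f e).topologicalClosure : Set E) ∧ WGQ f.ker A

/-- CRZ: the matrix algebra is the crossed product by the shift. -/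
def S_CRZ : Prop := ∀ (Q : Type) [Group Q] (B E : Type) [NonUnitalCStarAlgebra B]
  [NonUnitalCStarAlgebra E] (G : Fib Q B) (f : Q →* Multiplicative ℤ), Gauge G f →
  ∀ e : ℤ → ℤ → B →ₗ[ℂ] E, MatSys e →
  ∀ (A : Type) [NonUnitalCStarAlgebra A] (κ : A →⋆ₙₐ[ℂ] E), Function.Injective κ →
    Set.range κ = ((ASpan G f e).topologicalClosure : Set E) →
    ∃ (α : ℤ → A →⋆ₙₐ[ℂ] A) (j : ℤ → A →ₗ[ℂ] E), IsCrossZ α j

/-! ## Assembly -/

/-- TT: topologically graded algebras. -/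
def S_TT : Prop := ∀ (𝒞 : Cls), RSClass 𝒞 → ∀ (Q : Type) [Group Q]
  (f : Q →* Multiplicative ℤ), Function.Surjective f →
  (∀ (A : Type) [NonUnitalCStarAlgebra A] [TopologicalSpace.SeparableSpace A],
    WGQ f.ker A → 𝒞 A) →
  ∀ (B : Type) [NonUnitalCStarAlgebra B] [TopologicalSpace.SeparableSpace B] (G : Fib Q B),
    G.Comm → Gauge G f → 𝒞 B

/-- RZ: groups in `PZ`. -/
def S_RZ : Prop := ∀ (𝒞 : Cls), RSClass 𝒞 → ∀ (Q : Type) [Group Q], PZ Q →
  ∀ (B : Type) [NonUnitalCStarAlgebra B] [TopologicalSpace.SeparableSpace B],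
    WGQ Q B → 𝒞 B

/-- RZL: groups that are locally in `PZ`. -/
def S_RZL : Prop := ∀ (𝒞 : Cls), RSClass 𝒞 →
  ∀ (B : Type) [NonUnitalCStarAlgebra B] [TopologicalSpace.SeparableSpace B]
  (Q : Type) [Group Q], (∀ H : Subgroup Q, H.FG → PZ H) →
  ∀ (G : Fib Q B) (A : Type) [NonUnitalCStarAlgebra A],
  IsTypeI A → ∀ ι : A →⋆ₙₐ[ℂ] B, Set.range ι = (G.fib 1 : Set B) → 𝒞 B

end Pool.Agent.Helper39.Uct
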