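import Pool.Agent.Helper39.Uct.PF1

open scoped ComplexOrder

namespace Pool.Agent.Helper39.Uct

open Fib

section

theorem star_sub_smul {B : Type} [NonUnitalCStarAlgebra B] (u v : B) (z : ℂ) :
    star (u - z • v) * (u - z • v) = star u * u - z • (star u * v) - star z • (star v * u) +
      (star z * z) • (star v * v) := by
  rw [star_sub, star_smul, sub_mul, mul_sub, mul_sub, mul_smul_comm, smul_mul_assoc,
    smul_mul_assoc, mul_smul_comm, smul_smul]
  abel

variable {Q : Type} [Group Q] {B : Type} [NonUnitalCStarAlgebra B] {G : Fib Q B} (φ : G.Pt)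

/-- The left kernel of a point. -/
def Nul : Submodule ℂ B where
  carrier := {y | φ (star y * y) = 0}
  add_mem' := by
    intro x y hx hy
    have hx' : φ (star x * x) = 0 := hx
    have hy' : φ (star y * y) = 0 := hy
    change φ (star (x + y) * (x + y)) = 0
    have e : star (x + y) * (x + y) = star x * x + star x * y + star y * x + star y * y := by
      rw [star_add]; noncomm_ring
    rw [e, map_add, map_add, map_add, hx', hy', pt_zero φ hy' x, pt_zero φ hx' y]
    simp
  zero_mem' := by simp
  smul_mem' := by
    intro c x hx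
    have hx' : φ (star x * x) = 0 := hx
    change φ (star (c • x) * (c • x)) = 0
    rw [star_smul, smul_mul_assoc, mul_smul_comm, map_smul, map_smul, hx']
    simp

theorem mem_Nul {y : B} : y ∈ Nul φ ↔ φ (star y * y) = 0 := Iff.rfl

theorem Nul_left {y : B} (hy : y ∈ Nul φ) (a : B) : a * y ∈ Nul φ := pt_left φ a y hy

theorem Nul_phi {y : B} (hy : y ∈ Nul φ) : φ y = 0 := pt_null φ hy

/-- `x * c ≡ φ c • x`. -/
theorem Nul_r {c : B} (hc : c ∈ G.fib 1) (x : B) : x * c - φ c • x ∈ Nul φ := by
  rw [mem_Nul]
  have e : star (x * c - φ c • x) * (x * c - φ c • x) =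
      star c * (star x * x) * c - φ c • (star c * (star x * x)) -
      star (φ c) • ((star x * x) * c) + (star (φ c) * φ c) • (star x * x) := by
    rw [star_sub_smul, star_mul]
    congr 1
    · congr 1
      · congr 1
        · noncomm_ring
        · rw [mul_assoc]
      · rw [← mul_assoc]
  have hc' := unit_star G hc
  rw [e, map_add, map_sub, map_sub, map_smul, map_smul, map_smul, pt_mulR φ hc, pt_mulL φ hc',
    pt_mulR φ hc, pt_herm]
  simp only [smul_eq_mul]
  ring

/-- `c * x ≡ φ c • x` over the stabiliser. -/
theorem Nul_l {c : B} (hc : c ∈ G.fib 1) {q : Q} (hq : q ∈ G.St φ) {x : B} (hx : x ∈ G.fib q) :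
    c * x - φ c • x ∈ Nul φ := by
  rw [mem_Nul]
  have e : star (c * x - φ c • x) * (c * x - φ c • x) =
      star x * (star c * c) * x - φ c • (star x * star c * x) -
      star (φ c) • (star x * c * x) + (star (φ c) * φ c) • (star x * x) := by
    rw [star_sub_smul, star_mul]
    congr 1
    · congr 1
      · congr 1
        noncomm_ring
      · rw [← mul_assoc]
  have hc' := unit_star G hc
  have h1 := hq.2 x hx _ (unit_mul G hc' hc)
  have h2 := hq.2 x hx _ hc'
  have h3 := hq.2 x hx _ hc
  rw [e, map_add, map_sub, map_sub, map_smul, map_smul, map_smul, h1, h2, h3,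
    pt_mulL φ hc', pt_herm]
  simp only [smul_eq_mul]
  ring

/-- Right multiplication preserves homogeneous null elements over the stabiliser. -/
theorem Nul_mul {p l : Q} {n a : B} (hn : n ∈ G.fib p) (h : n ∈ Nul φ) (hl : l ∈ G.St φ)
    (ha : a ∈ G.fib l) : n * a ∈ Nul φ := by
  rw [mem_Nul] at h ⊢
  have e : star (n * a) * (n * a) = star a * (star n * n) * a := by
    rw [star_mul]; noncomm_ring
  rw [e, hl.2 a ha _ (smem G hn hn), h, zero_mul]

/-- Elements of the same fibre are proportional modulo the left kernel. -/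
theorem Nul_prop (hG : G.Comm) {q : Q} {b b' : B} (hb : b ∈ G.fib q) (hb' : b' ∈ G.fib q)
    (h0 : φ (star b * b) ≠ 0) :
    b' - (φ (star b * b') / φ (star b * b)) • b ∈ Nul φ := by
  rw [mem_Nul]
  set z := φ (star b * b') / φ (star b * b) with hz
  have e : star (b' - z • b) * (b' - z • b) = star b' * b' - z • (star b' * b) -
      star z • (star b * b') + (star z * z) • (star b * b) := star_sub_smul _ _ _
  have h1 := pt_oned φ hG hb hb'
  have h2 : star (φ (star b * b')) = φ (star b' * b) := pt_conj φ b' b
  have h3 : star (φ (star b * b)) = φ (star b * b) := pt_conj φ b b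
  rw [e, map_add, map_sub, map_sub, map_smul, map_smul, map_smul]
  simp only [smul_eq_mul]
  have hz' : star z = φ (star b' * b) / φ (star b * b) := by
    rw [hz, star_div₀, h2, h3]
  rw [hz', hz]
  field_simp
  linear_combination -h1

theorem phi_cut {d : B} (hd : d ∈ G.fib 1) (y : B) :
    φ (d * y * d) = φ d * φ y * φ d := by
  rw [pt_mulR φ hd, pt_mulL φ hd]

end

end Pool.Agent.Helper39.Uct
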