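import Pool.Agent.Helper11.Uct2.TT
import Pool.Agent.Helper27.Uct2.IDL
import Pool.Agent.Helper3.Uct2.CRZ
import Pool.Agent.Helper41.Uct2.MAT
import Pool.Agent.Helper42.Uct2.FINT
import Pool.Agent.Helper43.Uct2.PZI
import Pool.Agent.Helper43.Uct2.HL
import Pool.Agent.Helper49.Uct2.GN
import Pool.Agent.Helper49.Uct2.MS
import Pool.Agent.Helper50.Uct2.EE
import Pool.Agent.Helper51.Uct2.NP
import Pool.Agent.Helper69.Uct2.RZ
import Pool.Agent.Helper75.Uct2.Zorn2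
import Pool.Agent.Helper90.Uct2.Red
import Pool.Agent.Helper94.Uct2.UQ
import Pool.Agent.Helper96.Uct2.Fes
import Pool.Agent.Helper97.Uct2.RZL

/-! The assembled theorem on the Rosenberg-Schochet bootstrap class. -/

namespace Pool.Agent.Helper39.Uct

theorem t_PZI : S_PZI := Helper43.Uct2.pzi Helper43.Uct2.hl

theorem t_FES : S_FES := Helper96.Uct2.fes Helper50.Uct2.t_EE

theorem t_FE : S_FE := Helper50.Uct2.t_FE t_PZI Helper50.Uct2.t_FEF t_FES

theorem t_FINT : S_FINT := Helper42.Uct2.fint Helper50.Uct2.t_EE Helper50.Uct2.t_FEF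

theorem t_FINI : S_FINI := Helper90.Uct2.fini (Helper90.Uct2.fin t_FINT)

theorem t_CRZ : S_CRZ := Helper3.Uct2.crz Helper94.Uct2.uq Helper94.Uct2.rn

theorem t_TT : S_TT := Helper11.Uct2.tt Helper49.Uct2.ms Helper94.Uct2.cor Helper41.Uct2.mat t_CRZ

theorem t_RZ : S_RZ := Helper69.Uct2.rz t_PZI Helper75.Uct2.t_ZORN2 Helper27.Uct2.idl
  Helper27.Uct2.tq2 Helper27.Uct2.ci Helper27.Uct2.tc Helper90.Uct2.red t_FINI t_FE t_TT

theorem t_RZL : S_RZL := Helper97.Uct2.rzl t_RZ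

end Pool.Agent.Helper39.Uct
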